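import Pool.Agent.Helper54_LOC.Init

/-!
# LOC: eigenvalue counts and test functions
-/

set_option autoImplicit false

open MeasureTheory ProbabilityTheory Filter

open scoped ENNReal NNReal BigOperators Topology

noncomputable section

namespace Pool.Agent.LOC

open Matrix Pool.Agent.Anderson Pool.Agent.Loc Pool.Agent.BED

variable {d : ℕ}

/-- the quadratic form of `H_Λ` -/
def hform (V : Site d → ℝ) (Λ : Finset (Site d)) (u : Site d → ℝ) : ℝ :=
  ∑ y ∈ Λ, V y * u y ^ 2 + hf Λ u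

theorem hform_eq_dot (V : Site d → ℝ) (Λ : Finset (Site d)) (u : Site d → ℝ) :
    hform V Λ u = (fun z : Λ => u z) ⬝ᵥ (HM V Λ).mulVec (fun z : Λ => u z) := by
  have h1 := qform_eq_dot V Λ 0 u
  rw [qform_eq] at h1
  unfold RM at h1
  rw [zero_smul, zero_sub, Matrix.neg_mulVec, dotProduct_neg] at h1
  unfold hform
  linarith

theorem hform_shift (V : Site d → ℝ) (Λ : Finset (Site d)) (u : Site d → ℝ) (x : Site d) :
    hform (fun y => V (x + y)) (Λ.image fun y => y - x) (fun y => u (x + y)) = hform V Λ u ∧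
    ∑ y ∈ Λ.image (fun y => y - x), u (x + y) ^ 2 = ∑ y ∈ Λ, u y ^ 2 := by
  classical
  have hinj : ∀ y ∈ Λ, ∀ w ∈ Λ, y - x = w - x → y = w := fun y _ w _ h => sub_left_injective h
  have e1 : ∀ y : Site d, x + (y - x) = y := fun y => by abel
  unfold hform hf
  rw [Finset.sum_image hinj, Finset.sum_image hinj, Finset.sum_image hinj]
  simp only [e1]
  refine ⟨?_, trivial⟩
  congr 1
  refine Finset.sum_congr rfl fun y _ => ?_
  rw [Finset.sum_image hinj]
  simp only [e1, hop_shift]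

theorem image_box (x : Site d) (l : ℕ) : (box x l).image (fun y => y - x) = box 0 l := by
  classical
  ext w
  rw [Finset.mem_image]
  constructor
  · rintro ⟨y, hy, rfl⟩
    rw [mem_box, sd_le_iff] at *
    intro i
    have := hy i
    rw [Pi.zero_apply, zero_sub, Pi.sub_apply, neg_sub]
    exact this
  · intro hw
    refine ⟨x + w, ?_, by abel⟩
    rw [mem_box, sd_le_iff] at *
    intro i
    have := hw i
    rw [Pi.zero_apply, zero_sub] at this
    rw [Pi.add_apply, sub_add_cancel_left]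
    exact this

theorem form_of_nAbove {V : Site d → ℝ} {Λ : Finset (Site d)} {e : ℝ} (h : 0 < nAbove V Λ e) :
    ∃ u : Site d → ℝ, (∃ y ∈ Λ, u y ≠ 0) ∧ e * ∑ y ∈ Λ, u y ^ 2 ≤ hform V Λ u := by
  classical
  unfold nAbove at h
  obtain ⟨i, hi⟩ := Finset.card_pos.1 h
  have hi2 : e ≤ (HM_isHermitian V Λ).eigenvalues i := (Finset.mem_filter.1 hi).2
  set v : Λ → ℝ := ((HM_isHermitian V Λ).eigenvectorBasis i : Λ → ℝ) with hv
  have hev : HM V Λ *ᵥ v = (HM_isHermitian V Λ).eigenvalues i • v :=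
    (HM_isHermitian V Λ).mulVec_eigenvectorBasis i
  have hv0 : v ≠ 0 := by
    intro h0
    have h1 := (HM_isHermitian V Λ).eigenvectorBasis.orthonormal.ne_zero i
    apply h1
    ext z
    exact congrFun h0 z
  set u : Site d → ℝ := fun z => if hz : z ∈ Λ then v ⟨z, hz⟩ else 0 with hu
  have huv : (fun z : Λ => u z) = v := by
    funext z
    simp [hu]
  have hs : ∑ y ∈ Λ, u y ^ 2 = v ⬝ᵥ v := by
    rw [← Finset.sum_coe_sort Λ, ← huv]
    exact Finset.sum_congr rfl fun y _ => by rw [sq]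
  refine ⟨u, ?_, ?_⟩
  · obtain ⟨z, hz⟩ := Function.ne_iff.1 hv0
    refine ⟨z, z.2, ?_⟩
    have := congrFun huv z
    rw [this]
    exact hz
  · rw [hform_eq_dot, huv, hev, dotProduct_smul, smul_eq_mul, hs]
    refine mul_le_mul_of_nonneg_right hi2 ?_
    rw [← hs]
    exact Finset.sum_nonneg fun y _ => sq_nonneg _

theorem nAbove_of_form {V : Site d → ℝ} {Λ : Finset (Site d)} {e : ℝ} {u : Site d → ℝ}
    (hu : ∃ y ∈ Λ, u y ≠ 0) (h : e * ∑ y ∈ Λ, u y ^ 2 ≤ hform V Λ u) : 0 < nAbove V Λ e := by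
  classical
  have h1 := H15.minmax Λ (HM V Λ) (HM_isHermitian V Λ) e 1 (fun _ z => u z)
    (fun _ => by
      obtain ⟨y, hy, hy0⟩ := hu
      intro h0
      exact hy0 (congrFun h0 ⟨y, hy⟩))
    (fun j j' hjj => absurd (Subsingleton.elim j j') hjj)
    (fun j j' hjj => absurd (Subsingleton.elim j j') hjj)
    (fun _ => by
      have e1 : ∑ x : Λ, u x * (HM V Λ *ᵥ fun z : Λ => u z) x = hform V Λ u := by
        rw [hform_eq_dot]; rfl
      rw [e1, Finset.sum_coe_sort Λ (fun y => u y ^ 2)]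
      exact h)
  unfold nAbove
  exact h1

/-- eigenvalues near the top in boxes at an arbitrary place -/
theorem nAbove_of_flat {M : ℕ} [NeZero M] {C : ℝ} {r : ℕ} {z μ : ℝ} {W : Site d → ℝ}
    (hC : ∀ (W : Site d → ℝ), Flat z μ (fun x : Tor d M => W (rep x)) →
      ∀ (x₀ : Site d) (L : ℕ), (∀ i, |x₀ i| + L ≤ r) →
      ∀ (hH : (HM W (box x₀ L)).IsHermitian) (lam : ℝ), 10 / μ ≤ lam → lam ≤ 1 →
        C ≤ lam * (L : ℝ) ^ 2 →
        lam ^ ((d : ℝ) / 2) * (2 * (L : ℝ) + 1) ^ d ≤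
          C * ((Finset.univ.filter fun i => z - lam ≤ hH.eigenvalues i).card : ℝ))
    (x : Site d) (hf : Flat z μ (fun t : Tor d M => W (x + rep t))) {l : ℕ} (hl : l ≤ r)
    {lam : ℝ} (h0 : 0 < lam) (h1 : 10 / μ ≤ lam) (h2 : lam ≤ 1) (h3 : C ≤ lam * (l : ℝ) ^ 2) :
    0 < nAbove W (box x l) (z - lam) := by
  have h4 := hC (fun y => W (x + y)) hf 0 l (fun i => by simpa using hl)
    (HM_isHermitian _ _) lam h1 h2 h3
  have h5 : 0 < nAbove (fun y => W (x + y)) (box 0 l) (z - lam) := by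
    unfold nAbove
    by_contra hcon
    have h6 : (Finset.univ.filter fun i => z - lam ≤
      (HM_isHermitian (fun y => W (x + y)) (box 0 l)).eigenvalues i).card = 0 := by omega
    rw [h6] at h4
    have h7 : 0 < lam ^ ((d : ℝ) / 2) * (2 * (l : ℝ) + 1) ^ d := by positivity
    rw [Nat.cast_zero, mul_zero] at h4
    linarith
  obtain ⟨u, hu, hform⟩ := form_of_nAbove h5
  rw [← image_box x l] at hu hform
  have e : (fun y => (fun w => u (w - x)) (x + y)) = u := by
    funext y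
    simp only [add_sub_cancel_left]
  obtain ⟨g1, g2⟩ := hform_shift W (box x l) (fun w => u (w - x)) x
  have e2 : ∀ y, (fun w => u (w - x)) (x + y) = u y := fun y => congrFun e y
  rw [e] at g1
  simp only [add_sub_cancel_left] at g2
  rw [g1, g2] at hform
  refine nAbove_of_form ?_ hform
  obtain ⟨y, hy, hy0⟩ := hu
  rw [Finset.mem_image] at hy
  obtain ⟨w, hw, rfl⟩ := hy
  exact ⟨w, hw, hy0⟩

end Pool.Agent.LOC
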