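import Pool.Agent.Helper54_LOC.Stmt

/-!
# LOC: statements of the modules GREENLOW and LOW (lower bound for the edge of the spectrum)
-/

set_option autoImplicit false

open MeasureTheory ProbabilityTheory

open scoped ENNReal NNReal BigOperators

noncomputable section

namespace Pool.Agent.LOC

open Matrix Pool.Agent.Anderson Pool.Agent.Loc Pool.Agent.BED

/-- Module GREENLOW: lower bound for the diagonal of the free Green function in finite volume.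
Recipe: (1) for `box x N ⊆ Λ`, `gr 0 Λ (2d+a) x x ≥ ∑_{n ≤ N} walks n 0 / (2d+a)^(n+1)` (the truncated
sum is a subsolution, maximum principle as in `gr_le_SW`), and the rest of the infinite series is at
most `∑_{n > N} (2d)^n / (2d+a)^(n+1) = (1/a) (1+a/(2d))^(-(N+1))`; (2) the infinite volume
difference `∑_n walks n 0 ((2d)^(-n-1) - (2d+a)^(-n-1))` is at most `C a^(1/(2d))`, because the
derivative of `gr 0 Λ (2d+s) x x` is `- ∑_y gr 0 Λ (2d+s) x y ^ 2 ≥ - C₅ s^(-1+1/(2d))` by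
`gr_zero_sq` (or directly, by dyadic use of the resolvent identity
`gr(2d+s) x x - gr(2d+2s) x x = s ∑_y gr(2d+s) x y gr(2d+2s) y x ≤ s ∑_y gr(2d+s) x y ^ 2`). -/
def GreenLowStmt : Prop := ∀ d : ℕ, 3 ≤ d → ∃ C : ℝ, 0 < C ∧ ∀ (Λ : Finset (Site d)) (N : ℕ)
  (a : ℝ) (x : Site d), 0 < a → a ≤ 1 → box x N ⊆ Λ →
    watson d - C * a ^ (1 / (2 * d : ℝ)) - (1 / a) * (1 + a / (2 * d)) ^ (-(N : ℝ)) ≤
      gr 0 Λ (2 * d + a) x x

universe u

/-- Module LOW: with not too small probability there is a test function in the box of radius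
`|σ|⁻³` with a large Rayleigh quotient. Recipe (`Λ = box 0 L`, `V = σ ξ`, `G = (2d + a - Δ_Λ)⁻¹`,
`a = |σ|²` or so, `φ = 1_Λ`, `u = φ + G V φ`, `s = 2d + b`, `b = G_d σ² - C |σ|^(2+1/(24d)) < a`
after enlarging `a`): the form `X = ⟨u, (Δ + V - s) u⟩` is a polynomial of degree 3 in the `ξ`; the
terms of odd degree have expectation 0, and
`E X = ⟨φ, (Δ - s) φ⟩ + σ² tr G + (a - b) σ² ∑ G(x,y)² ≥ |Λ| (σ² avg G(x,x) - b - C / L) ≥
|Λ| |σ|³`; `E X² ≤ C |Λ|^6` (crude), so by Cauchy-Schwarz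
`P(X > 0) ≥ (E X)² / E X² ≥ |σ|^(24 d)`. -/
def LowStmt : Prop := ∀ d : ℕ, 3 ≤ d → ∃ σ₀ C : ℝ, 0 < σ₀ ∧ 0 < C ∧ ∀ σ : ℝ, σ ≠ 0 → |σ| < σ₀ →
  ∀ L : ℕ, |σ|⁻¹ ^ 3 ≤ (L : ℝ) → (L : ℝ) ≤ 2 * |σ|⁻¹ ^ 3 →
    ∀ (Ω : Type u) [MeasurableSpace Ω] (P : Measure Ω) [IsProbabilityMeasure P]
      (ξ : Site d → Ω → ℝ), (∀ y, Measurable (ξ y)) →
      (∀ y, P.map (ξ y) = gaussianReal 0 1) → iIndepFun ξ P →
      ENNReal.ofReal (|σ| ^ (24 * d)) ≤
        P {ω | ∃ u : Site d → ℝ,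
          (2 * d + watson d * σ ^ 2 - C * |σ| ^ (2 + 1 / (24 * d : ℝ))) *
            ∑ y ∈ box 0 L, u y ^ 2 < ∑ y ∈ box 0 L, σ * ξ y ω * u y ^ 2 + hf (box 0 L) u}

end Pool.Agent.LOC
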