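import Pool.Agent.Helper54_BED.Defs

/-!
# LOC: the width of the window
-/

set_option autoImplicit false

open scoped BigOperators

noncomputable section

namespace Pool.Agent.LOC

open Pool.Agent.BED

/-- `σ⁴ (1 + log (1/|σ|))² / c` for `d = 3`, `exp (-c / |σ|)` for `d = 4`, `exp (-c / σ²)`
otherwise -/
def window (d : ℕ) (c σ : ℝ) : ℝ :=
  if d = 3 then σ ^ 4 * (1 + Real.log (1 / |σ|)) ^ 2 / c
  else if d = 4 then Real.exp (-c / |σ|) else Real.exp (-c / σ ^ 2)

theorem window_anti (d : ℕ) {c c₁ σ : ℝ} (hc : 0 < c) (hcc : c ≤ c₁) :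
    window d c₁ σ ≤ window d c σ := by
  unfold window
  have h1 : 0 ≤ |σ| := abs_nonneg σ
  have h2 : 0 ≤ σ ^ 2 := sq_nonneg σ
  split_ifs
  · have : 0 ≤ σ ^ 4 * (1 + Real.log (1 / |σ|)) ^ 2 := by positivity
    gcongr
  · gcongr
  · gcongr

theorem window_spec (d : ℕ) {c₂ : ℝ} (hc₂ : 0 < c₂) : ∃ c₁ σ₁ : ℝ, 0 < c₁ ∧ 0 < σ₁ ∧ σ₁ ≤ 1 ∧
    ∀ σ : ℝ, σ ≠ 0 → |σ| ≤ σ₁ → 0 < window d c₁ σ ∧ |σ|⁻¹ ^ 3 ≤ (window d c₁ σ)⁻¹ ∧
      σ ^ 2 * growth d (window d c₁ σ)⁻¹ * Real.log (window d c₁ σ)⁻¹ ≤ c₂ := by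
  set c₁ : ℝ := min 1 (min (c₂ / 2) (c₂ ^ 2 / 16)) with hc₁
  have hc0 : 0 < c₁ := by positivity
  have hc1 : c₁ ≤ 1 := min_le_left _ _
  have hc2 : c₁ ≤ c₂ / 2 := (min_le_right _ _).trans (min_le_left _ _)
  have hc3 : c₁ ≤ c₂ ^ 2 / 16 := (min_le_right _ _).trans (min_le_right _ _)
  refine ⟨c₁, min 1 (min ((c₁ / 16) ^ 2) (min (c₁ ^ 4 / 24) (c₁ ^ 2 / 2))), hc0, by positivity,
    min_le_left _ _, ?_⟩
  intro σ hσ hσσ
  set s : ℝ := |σ| with hs
  have hs0 : 0 < s := abs_pos.2 hσ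
  have hss : σ ^ 2 = s ^ 2 := by rw [hs, sq_abs]
  have hs4 : σ ^ 4 = s ^ 4 := by
    rw [show σ ^ 4 = (σ ^ 2) ^ 2 by ring, hss]; ring
  have hs1 : s ≤ 1 := hσσ.trans (min_le_left _ _)
  have hsA : s ≤ (c₁ / 16) ^ 2 := hσσ.trans ((min_le_right _ _).trans (min_le_left _ _))
  have hsB : s ≤ c₁ ^ 4 / 24 :=
    hσσ.trans ((min_le_right _ _).trans ((min_le_right _ _).trans (min_le_left _ _)))
  have hsC : s ≤ c₁ ^ 2 / 2 :=
    hσσ.trans ((min_le_right _ _).trans ((min_le_right _ _).trans (min_le_right _ _)))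
  unfold window
  rw [← hs, hss, hs4]
  split_ifs with h3 h4
  · -- d = 3
    set y : ℝ := 1 / s with hy
    have hy1 : 1 ≤ y := by rw [hy, le_div_iff₀ hs0]; linarith
    have hlog : 0 ≤ Real.log y := Real.log_nonneg hy1
    set l : ℝ := 1 + Real.log y with hl
    have hl1 : 1 ≤ l := by rw [hl]; linarith
    have hl0 : 0 < l := by linarith
    have hl2 : l ≤ 4 * √√y := by
      have h5 : Real.log y = 4 * Real.log √√y := by
        rw [Real.log_sqrt (Real.sqrt_nonneg _), Real.log_sqrt (by linarith)]; ring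
      have h6 : 0 < √√y := Real.sqrt_pos.2 (Real.sqrt_pos.2 (by linarith))
      have h7 := Real.log_le_sub_one_of_pos h6
      rw [hl, h5]; linarith
    have hl3 : s * l ^ 2 ≤ c₁ := by
      have h8 : l ^ 2 ≤ 16 * √y := by
        calc l ^ 2 ≤ (4 * √√y) ^ 2 := by gcongr
          _ = 16 * √y := by rw [mul_pow, Real.sq_sqrt (Real.sqrt_nonneg _)]; norm_num
      have h9 : s * √y = √s := by
        rw [hy, Real.sqrt_div zero_le_one, Real.sqrt_one]
        rw [mul_one_div, div_eq_iff (Real.sqrt_pos.2 hs0).ne', Real.mul_self_sqrt hs0.le]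
      have h10 : √s ≤ c₁ / 16 := by
        rw [Real.sqrt_le_left (by positivity)]; exact hsA
      calc s * l ^ 2 ≤ s * (16 * √y) := by gcongr
        _ = 16 * (s * √y) := by ring
        _ = 16 * √s := by rw [h9]
        _ ≤ c₁ := by linarith
    have hinv : (s ^ 4 * l ^ 2 / c₁)⁻¹ = c₁ / (s ^ 4 * l ^ 2) := by rw [inv_div]
    refine ⟨by positivity, ?_, ?_⟩
    · rw [hinv, le_div_iff₀ (by positivity)]
      have : s⁻¹ ^ 3 * (s ^ 4 * l ^ 2) = s * l ^ 2 := by field_simp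
      rw [this]; exact hl3
    · rw [hinv]
      unfold growth
      rw [if_pos h3]
      have h11 : √(c₁ / (s ^ 4 * l ^ 2)) = √c₁ / (s ^ 2 * l) := by
        rw [Real.sqrt_div hc0.le, show s ^ 4 * l ^ 2 = (s ^ 2 * l) ^ 2 by ring,
          Real.sqrt_sq (by positivity)]
      have h12 : Real.log (c₁ / (s ^ 4 * l ^ 2)) ≤ 4 * l := by
        have h13 : c₁ / (s ^ 4 * l ^ 2) ≤ y ^ 4 := by
          rw [hy, div_pow, one_pow, div_le_div_iff₀ (by positivity) (by positivity), one_mul]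
          have : 1 ≤ l ^ 2 := one_le_pow₀ hl1
          have h14 : 0 < s ^ 4 := by positivity
          nlinarith
        calc Real.log (c₁ / (s ^ 4 * l ^ 2)) ≤ Real.log (y ^ 4) :=
              Real.log_le_log (by positivity) h13
          _ = 4 * Real.log y := by rw [Real.log_pow]; norm_num
          _ ≤ 4 * l := by rw [hl]; linarith
      have h15 : √c₁ ≤ c₂ / 4 := by
        rw [Real.sqrt_le_left (by positivity)]
        linarith
      rw [h11]
      calc s ^ 2 * (√c₁ / (s ^ 2 * l)) * Real.log (c₁ / (s ^ 4 * l ^ 2))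
          ≤ s ^ 2 * (√c₁ / (s ^ 2 * l)) * (4 * l) := by gcongr
        _ = 4 * √c₁ := by field_simp
        _ ≤ c₂ := by linarith
  · -- d = 4
    have hinv : (Real.exp (-c₁ / s))⁻¹ = Real.exp (c₁ / s) := by
      rw [← Real.exp_neg]; congr 1; ring
    refine ⟨Real.exp_pos _, ?_, ?_⟩
    · rw [hinv]
      have h5 := Real.pow_div_factorial_le_exp (c₁ / s) (by positivity) 4
      refine le_trans ?_ h5
      have h6 : ((Nat.factorial 4 : ℕ) : ℝ) = 24 := by norm_num [Nat.factorial]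
      rw [h6, inv_pow, ← one_div, div_pow, div_div, div_le_div_iff₀ (by positivity) (by positivity)]
      have h7 : 0 < s ^ 3 := by positivity
      nlinarith
    · rw [hinv]
      unfold growth
      rw [if_neg h3, if_pos h4, Real.log_exp]
      have : s ^ 2 * (1 + c₁ / s) * (c₁ / s) = s * c₁ + c₁ ^ 2 := by field_simp
      rw [this]
      nlinarith
  · -- d ≥ 5 (or small)
    have hinv : (Real.exp (-c₁ / s ^ 2))⁻¹ = Real.exp (c₁ / s ^ 2) := by
      rw [← Real.exp_neg]; congr 1; ring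
    refine ⟨Real.exp_pos _, ?_, ?_⟩
    · rw [hinv]
      have h5 := Real.pow_div_factorial_le_exp (c₁ / s ^ 2) (by positivity) 2
      refine le_trans ?_ h5
      have h6 : ((Nat.factorial 2 : ℕ) : ℝ) = 2 := by norm_num [Nat.factorial]
      rw [h6, inv_pow, ← one_div, div_pow, div_div, div_le_div_iff₀ (by positivity) (by positivity)]
      have h7 : 0 < s ^ 3 := by positivity
      nlinarith
    · rw [hinv]
      unfold growth
      rw [if_neg h3, if_neg h4, Real.log_exp]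
      have : s ^ 2 * 1 * (c₁ / s ^ 2) = c₁ := by field_simp
      rw [this]
      linarith

end Pool.Agent.LOC
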