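import Pool.Agent.Helper54_LOC.Cnt
import Pool.Agent.Helper54_LOC.Window
import Pool.Agent.Helper54_LOC.StmtLow

/-!
# LOC: the position of the edge
-/

set_option autoImplicit false

open MeasureTheory ProbabilityTheory Filter

open scoped ENNReal NNReal BigOperators Topology

noncomputable section

namespace Pool.Agent.LOC

open Matrix Pool.Agent.Anderson Pool.Agent.Loc Pool.Agent.BED

variable {d : ℕ}

/-- the property of the count, for fixed parameters -/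
def CountAt (d : ℕ) (C : ℝ) (r : ℕ) (z μ : ℝ) : Prop :=
  ∀ (W : Site d → ℝ), Flat z μ (fun x : Tor d (4 * r + 3) => W (rep x)) →
      ∀ (x₀ : Site d) (L : ℕ), (∀ i, |x₀ i| + L ≤ r) →
      ∀ (hH : (HM W (box x₀ L)).IsHermitian) (lam : ℝ), 10 / μ ≤ lam → lam ≤ 1 →
        C ≤ lam * (L : ℝ) ^ 2 →
        lam ^ ((d : ℝ) / 2) * (2 * (L : ℝ) + 1) ^ d ≤
          C * ((Finset.univ.filter fun i => z - lam ≤ hH.eigenvalues i).card : ℝ)

/-- upper bound for the edge -/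
theorem edge_upper {C : ℝ} {r : ℕ} {z μ : ℝ} (hC : CountAt d C r z μ)
    {σ p B : ℝ} {v : ℝ≥0} (hv : (v : ℝ) = σ ^ 2) (hp0 : 0 ≤ p) (hp8 : p ≤ 1 / 8)
    (hgau : gau d (4 * r + 3) v {V | ¬ Flat z μ V} ≤ ENNReal.ofReal p) {L : ℕ}
    (hUp : ∀ (Ω : Type) [MeasurableSpace Ω] (P : Measure Ω) [IsProbabilityMeasure P]
      (ξ : Site d → Ω → ℝ), (∀ y, Measurable (ξ y)) →
      (∀ y, P.map (ξ y) = gaussianReal 0 1) → iIndepFun ξ P →
      P {ω | ¬ ∀ u : Site d → ℝ, ∑ y ∈ box 0 L, σ * ξ y ω * u y ^ 2 + hf (box 0 L) u ≤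
        B * ∑ y ∈ box 0 L, u y ^ 2} ≤ ENNReal.ofReal (1 / 4))
    (hLr : L ≤ r) {lam : ℝ} (h0 : 0 < lam) (h1 : 10 / μ ≤ lam) (h2 : lam ≤ 1)
    (h3 : C ≤ lam * (L : ℝ) ^ 2) : z ≤ B + lam := by
  obtain ⟨Ω, _, P, ξ, hm, hlaw', hind, _⟩ := exists_iid (Site d) (gaussianReal 0 1)
  have hlaw : ∀ y, P.map (ξ y) = gaussianReal 0 1 := fun y => (hlaw' y).map_eq
  have hb1 := prob_flat hm hlaw hind hv hp0 hgau 0
  have hb2 := hUp Ω P ξ hm hlaw hind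
  have hex : ∃ ω, (Flat z μ (fun t : Tor d (4 * r + 3) => σ * ξ (0 + rep t) ω) ∧
      Flat z μ (fun t : Tor d (4 * r + 3) => - (σ * ξ (0 + rep t) ω))) ∧
      ∀ u : Site d → ℝ, ∑ y ∈ box 0 L, σ * ξ y ω * u y ^ 2 + hf (box 0 L) u ≤
        B * ∑ y ∈ box 0 L, u y ^ 2 := by
    by_contra hcon
    push Not at hcon
    have hsub : (Set.univ : Set Ω) ⊆ {ω | ¬ (Flat z μ (fun t : Tor d (4 * r + 3) =>
        σ * ξ (0 + rep t) ω) ∧ Flat z μ (fun t : Tor d (4 * r + 3) => - (σ * ξ (0 + rep t) ω)))} ∪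
        {ω | ¬ ∀ u : Site d → ℝ, ∑ y ∈ box 0 L, σ * ξ y ω * u y ^ 2 + hf (box 0 L) u ≤
        B * ∑ y ∈ box 0 L, u y ^ 2} := by
      intro ω _
      by_cases hω : (Flat z μ (fun t : Tor d (4 * r + 3) => σ * ξ (0 + rep t) ω) ∧
        Flat z μ (fun t : Tor d (4 * r + 3) => - (σ * ξ (0 + rep t) ω)))
      · right
        intro hall
        obtain ⟨u, hu⟩ := hcon ω hω
        exact absurd (hall u) (not_le.2 hu)
      · left
        exact hω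
    have h5 : (1 : ℝ≥0∞) ≤ ENNReal.ofReal (1 / 2) := by
      calc (1 : ℝ≥0∞) = P Set.univ := measure_univ.symm
        _ ≤ _ := (measure_mono hsub).trans (measure_union_le _ _)
        _ ≤ ENNReal.ofReal (2 * p) + ENNReal.ofReal (1 / 4) := add_le_add hb1 hb2
        _ = ENNReal.ofReal (2 * p + 1 / 4) := (ENNReal.ofReal_add (by positivity) (by norm_num)).symm
        _ ≤ ENNReal.ofReal (1 / 2) := ENNReal.ofReal_le_ofReal (by linarith)
    rw [ENNReal.one_le_ofReal] at h5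
    norm_num at h5
  obtain ⟨ω, hω1, hω2⟩ := hex
  have h6 := nAbove_of_flat (W := fun y => σ * ξ y ω) hC 0 hω1.1 hLr h0 h1 h2 h3
  obtain ⟨u, ⟨y, hy, hy0⟩, hu⟩ := form_of_nAbove h6
  have h7 := hω2 u
  have h8 : 0 < ∑ y ∈ box 0 L, u y ^ 2 :=
    Finset.sum_pos' (fun y _ => sq_nonneg _) ⟨y, hy, by positivity⟩
  unfold hform at hu
  by_contra hcon
  push Not at hcon
  nlinarith

/-- lower bound for the edge -/
theorem edge_lower {r : ℕ} {z μ : ℝ} {σ p B q : ℝ} {v : ℝ≥0} (hμ : 0 < μ)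
    (hv : (v : ℝ) = σ ^ 2) (hp0 : 0 ≤ p)
    (hgau : gau d (4 * r + 3) v {V | ¬ Flat z μ V} ≤ ENNReal.ofReal p) (hpq : 2 * p < q) {L : ℕ}
    (hLow : ∀ (Ω : Type) [MeasurableSpace Ω] (P : Measure Ω) [IsProbabilityMeasure P]
      (ξ : Site d → Ω → ℝ), (∀ y, Measurable (ξ y)) →
      (∀ y, P.map (ξ y) = gaussianReal 0 1) → iIndepFun ξ P →
      ENNReal.ofReal q ≤ P {ω | ∃ u : Site d → ℝ, B * ∑ y ∈ box 0 L, u y ^ 2 <
        ∑ y ∈ box 0 L, σ * ξ y ω * u y ^ 2 + hf (box 0 L) u})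
    (hLr : L ≤ r) : B ≤ z := by
  obtain ⟨Ω, _, P, ξ, hm, hlaw', hind, _⟩ := exists_iid (Site d) (gaussianReal 0 1)
  have hlaw : ∀ y, P.map (ξ y) = gaussianReal 0 1 := fun y => (hlaw' y).map_eq
  have hb1 := prob_FB hm hlaw hind hv hp0 hμ hgau le_rfl 0 (box 0 L) (box_mono 0 hLr)
  have hb2 := hLow Ω P ξ hm hlaw hind
  by_contra hcon
  push Not at hcon
  have hsub : {ω | ∃ u : Site d → ℝ, B * ∑ y ∈ box 0 L, u y ^ 2 <
        ∑ y ∈ box 0 L, σ * ξ y ω * u y ^ 2 + hf (box 0 L) u} ⊆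
      {ω | ¬ FB (fun y => σ * ξ y ω) (box 0 L) (z - 1 / (2 * μ))} := by
    rintro ω ⟨u, hu⟩ hFB
    have h1 := (abs_le.1 (hFB u)).2
    have h2 : 0 ≤ ∑ y ∈ box 0 L, u y ^ 2 := Finset.sum_nonneg fun y _ => sq_nonneg _
    have h3 : 0 < 1 / (2 * μ) := by positivity
    nlinarith
  have h4 := hb2.trans ((measure_mono hsub).trans hb1)
  rw [ENNReal.ofReal_le_ofReal_iff (by positivity)] at h4
  linarith

end Pool.Agent.LOC
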