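import Pool.Agent.Helper54_LOC.Weak
import Pool.Agent.Helper48_Loc.Decay
import Pool.Agent.Helper48_Loc.Complete2
import Pool.Agent.Helper48_Loc.TwoBox

/-!
# LOC: assembly
-/

set_option autoImplicit false

open MeasureTheory ProbabilityTheory Filter

open scoped ENNReal NNReal BigOperators Topology ComplexInnerProductSpace

noncomputable section

namespace Pool.Agent.LOC

open Matrix Pool.Agent.Anderson Pool.Agent.Loc Pool.Agent.BED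

universe u

/-- localization from the decay at fixed energy -/
theorem loc_of_decay {d : ℕ} {σ E₀ K μ : ℝ} (hE₀ : 0 < E₀) (hμ : 0 < μ) {Ω : Type u}
    [MeasurableSpace Ω] {P : Measure Ω} [IsProbabilityMeasure P] {ξ : Site d → Ω → ℝ}
    (hm : ∀ y, Measurable (ξ y)) (hind : iIndepFun ξ P)
    (h : FixedDecay P (fun y ω => σ * ξ y ω) E₀ K μ) :
    ∀ᵐ ω ∂P,
      (∀ E : ℝ, E₀ ≤ |E| → ∀ ψ : Site d → ℂ,
        (∃ (K : ℝ) (k : ℕ), ∀ x, ‖ψ x‖ ≤ K * (1 + (sd 0 x : ℝ)) ^ k) →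
        (∀ x, lap ψ x + ((σ * ξ x ω : ℝ) : ℂ) * ψ x = (E : ℂ) * ψ x) →
        ∃ K : ℝ, ∀ x, ‖ψ x‖ ≤ K * Real.exp (-(μ / 4) * sd 0 x)) ∧
      (∀ u w : L2 d, (∀ x, w x = lap u x + ((σ * ξ x ω : ℝ) : ℂ) * u x) →
        (∀ (E : ℝ) (ψ : L2 d), E₀ ≤ |E| → IsEigen (fun x => σ * ξ x ω) E ψ →
          ⟪ψ, u⟫ = 0) →
        ‖w‖ ≤ E₀ * ‖u‖) := by
  have h1 := twoBox_of_fixedDecay (V := fun y ω => σ * ξ y ω) (fun z => (hm z).const_mul σ)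
    (hind.comp (fun _ t => σ * t) fun _ => by fun_prop) hE₀ hμ h
  filter_upwards [h1] with ω hω
  obtain ⟨L₀, hL₀⟩ := hω
  refine ⟨fun E hE ψ hpoly hψ => decay_of_twoBox hμ hL₀ hE hpoly hψ, fun u w hw horth => ?_⟩
  exact complete_of_twoBox hE₀.le hμ hL₀ hw fun E ψ hE hψ _ => horth E ψ hE hψ

theorem loc_of (hUp : UpStmt.{0}) (hExpc : ExpcStmt.{u}) (hLow : LowStmt.{0}) (d : ℕ)
    (hd : 3 ≤ d) :
    ∃ c C : ℝ, 0 < c ∧ 0 < C ∧ ∀ σ : ℝ, σ ≠ 0 → ∃ E₀ m : ℝ, 0 < m ∧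
      |E₀ - (2 * d + watson d * σ ^ 2)| ≤ C * |σ| ^ (2 + 1 / (24 * d : ℝ)) ∧
      ∀ (Ω : Type u) [MeasurableSpace Ω] (P : Measure Ω) [IsProbabilityMeasure P]
        (ξ : Site d → Ω → ℝ), (∀ y, Measurable (ξ y)) →
        (∀ y, P.map (ξ y) = gaussianReal 0 1) → iIndepFun ξ P →
        (∀ᵐ ω ∂P,
          (∀ E : ℝ, E₀ ≤ |E| → ∀ ψ : Site d → ℂ,
            (∃ (K : ℝ) (k : ℕ), ∀ x, ‖ψ x‖ ≤ K * (1 + (sd 0 x : ℝ)) ^ k) →
            (∀ x, lap ψ x + ((σ * ξ x ω : ℝ) : ℂ) * ψ x = (E : ℂ) * ψ x) →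
            ∃ K : ℝ, ∀ x, ‖ψ x‖ ≤ K * Real.exp (-m * sd 0 x)) ∧
          (∀ u w : L2 d, (∀ x, w x = lap u x + ((σ * ξ x ω : ℝ) : ℂ) * u x) →
            (∀ (E : ℝ) (ψ : L2 d), E₀ ≤ |E| → IsEigen (fun x => σ * ξ x ω) E ψ →
              ⟪ψ, u⟫ = 0) →
            ‖w‖ ≤ E₀ * ‖u‖)) ∧
        (|σ| ≤ c → ∀ lam : ℝ, window d c σ ≤ lam → lam ≤ 1 → ∃ L₀ : ℕ, ∀ L : ℕ, L₀ ≤ L →
          ENNReal.ofReal (c * lam ^ ((d : ℝ) / 2) * (2 * (L : ℝ) + 1) ^ d) ≤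
            ∫⁻ ω, (nAbove (fun y => σ * ξ y ω) (box 0 L) (E₀ - lam) : ℝ≥0∞) ∂P) := by
  obtain ⟨c, C, hc, hC, hweak⟩ := weak.{u} hUp hExpc hLow d hd
  obtain ⟨C', hC', hall⟩ := fixedDecay_gauss.{u} hd
  refine ⟨c, max C C', hc, by positivity, fun σ hσ => ?_⟩
  have hs : 0 < |σ| := abs_pos.2 hσ
  have hsp : 0 < |σ| ^ (2 + 1 / (24 * d : ℝ)) := Real.rpow_pos_of_pos hs _
  rcases le_or_gt |σ| c with h | h
  · obtain ⟨E₀, K, m, hm0, hE₀, hloc, hdos, hdec⟩ := hweak σ hσ h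
    refine ⟨E₀, m / 4, by positivity, hloc.trans ?_, ?_⟩
    · exact mul_le_mul_of_nonneg_right (le_max_left _ _) hsp.le
    · intro Ω _ P _ ξ hm hlaw hind
      refine ⟨loc_of_decay hE₀ hm0 hm hind (hdec Ω P ξ hm hlaw hind), ?_⟩
      intro _ lam hl hl1
      obtain ⟨L₀, hL₀⟩ := hdos lam hl hl1
      exact ⟨L₀, fun L hL => hL₀ L hL Ω P ξ hm hlaw hind⟩
  · obtain ⟨K, m, hm0, hdec⟩ := hall σ hσ
    have hG := watson_pos hd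
    have hd0 : (0:ℝ) < d := by
      have : 0 < d := by omega
      exact_mod_cast this
    refine ⟨2 * d + watson d * σ ^ 2 + C' * |σ| ^ (2 + 1 / (24 * d : ℝ)), m / 4, by positivity,
      ?_, ?_⟩
    · rw [add_sub_cancel_left, abs_of_pos (by positivity)]
      exact mul_le_mul_of_nonneg_right (le_max_right _ _) hsp.le
    · intro Ω _ P _ ξ hm hlaw hind
      refine ⟨loc_of_decay (by positivity) hm0 hm hind (hdec P ξ hm hlaw hind), ?_⟩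
      intro hcon
      linarith

end Pool.Agent.LOC
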