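import Pool.Agent.Helper54_LOC.Stmt

/-!
# LOC: module GAP
-/

set_option autoImplicit false

open MeasureTheory ProbabilityTheory

open scoped ENNReal NNReal BigOperators

noncomputable section

namespace Pool.Agent.LOC

open Matrix Pool.Agent.Anderson Pool.Agent.Loc Pool.Agent.BED

variable {d M : ℕ}

theorem sum_rep [NeZero M] (Λ : Finset (Site d)) (hΛ : ∀ y ∈ Λ, ∀ i, 2 * |y i| < (M : ℤ))
    (G : Site d → ℝ) (hG : ∀ y, y ∉ Λ → G y = 0) :
    ∑ x : Tor d M, G (rep x) = ∑ y ∈ Λ, G y := by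
  have h2 : ∑ x : Tor d M, G (rep x) = ∑ y ∈ Finset.univ.image (rep : Tor d M → Site d), G y := by
    rw [Finset.sum_image (fun x _ y _ h => H73.rep_inj h)]
  rw [h2]
  symm
  refine Finset.sum_subset (fun y hy => ?_) fun y _ hy => hG _ hy
  rw [Finset.mem_image]
  exact ⟨fun i => ((y i : ℤ) : ZMod M), Finset.mem_univ _, H73.rep_coe y fun i => hΛ y hy i⟩

/-- one side -/
theorem gap_one [NeZero M] {r : ℕ} (hr : 4 * r + 3 ≤ M) {z μ : ℝ} {U : Site d → ℝ} (hμ : 0 < μ)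
    (hf1 : Flat z μ (fun x : Tor d M => U (rep x))) {Λ : Finset (Site d)} (hΛ : Λ ⊆ box 0 r)
    (v : Site d → ℝ) :
    1 / (2 * μ) * ∑ y ∈ Λ, v y ^ 2 ≤
      z * ∑ y ∈ Λ, v y ^ 2 - (∑ y ∈ Λ, U y * v y ^ 2 + hf Λ v) := by
  classical
  obtain ⟨-, hA, hD⟩ := hf1
  have hM : (4 * (r : ℤ) + 3) ≤ M := by exact_mod_cast hr
  have hb : ∀ y ∈ Λ, ∀ i, |y i| ≤ (r : ℤ) := by
    intro y hy i
    have h1 := sd_le_iff.1 (mem_box.1 (hΛ hy)) i
    simpa [abs_neg] using h1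
  have hΛ1 : ∀ y ∈ Λ, ∀ i, 2 * (|y i| + 1) < (M : ℤ) := by
    intro y hy i
    have := hb y hy i
    linarith
  set F : Site d → ℝ := fun y => if y ∈ Λ then v y else 0 with hF
  have hF0 : ∀ y, y ∉ Λ → F y = 0 := fun y hy => by rw [hF]; simp only [if_neg hy]
  have hF1 : ∀ y, y ∈ Λ → F y = v y := fun y hy => by rw [hF]; simp only [if_pos hy]
  have hq := H73.quad_torus (M := M) z U Λ hΛ1 F hF0
  have hs : ∑ x : Tor d M, (fun x : Tor d M => F (rep x)) x ^ 2 = ∑ y ∈ Λ, v y ^ 2 := by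
    rw [sum_rep Λ (fun y hy i => by have := hΛ1 y hy i; linarith) (fun y => F y ^ 2)
      (fun y hy => by simp only [hF0 y hy]; norm_num)]
    exact Finset.sum_congr rfl fun y hy => by rw [hF1 y hy]
  have hDb : ∀ x : Tor d M, DD z (fun x : Tor d M => U (rep x)) x ≤ 51 / 50 * μ := by
    intro x
    have := (abs_le.1 (hD x)).2
    linarith
  have h1 := H32.AM_form_ge hA hDb (fun x => F (rep x))
  rw [hs, hq] at h1
  have h2 : ∑ y ∈ Λ, F y * ((z - U y) * F y - ∑ w ∈ Λ, hop y w * F w) =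
      z * ∑ y ∈ Λ, v y ^ 2 - (∑ y ∈ Λ, U y * v y ^ 2 + hf Λ v) := by
    unfold hf
    rw [Finset.mul_sum, ← Finset.sum_add_distrib, ← Finset.sum_sub_distrib]
    refine Finset.sum_congr rfl fun y hy => ?_
    rw [hF1 y hy]
    have h3 : ∑ w ∈ Λ, hop y w * F w = ∑ w ∈ Λ, hop y w * v w :=
      Finset.sum_congr rfl fun w hw => by rw [hF1 w hw]
    rw [h3, mul_sub, Finset.mul_sum]
    have h4 : ∑ w ∈ Λ, v y * (hop y w * v w) = ∑ w ∈ Λ, v y * hop y w * v w :=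
      Finset.sum_congr rfl fun w _ => by ring
    rw [h4]
    ring
  rw [h2] at h1
  refine le_trans ?_ h1
  have h5 : 0 ≤ ∑ y ∈ Λ, v y ^ 2 := Finset.sum_nonneg fun y _ => sq_nonneg _
  refine mul_le_mul_of_nonneg_right ?_ h5
  refine one_div_le_one_div_of_le (by positivity) (by linarith)

theorem gap : GapStmt := by
  intro d M _ r hr z μ W hμ hfp hfm Λ hΛ u
  have h1 := gap_one hr hμ hfp hΛ u
  have h2 := gap_one (U := fun y => - W y) hr hμ hfm hΛ (fun y => stag y * u y)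
  rw [hf_stag] at h2
  simp_rw [mul_pow, stag_sq, one_mul] at h2
  have h3 : ∑ y ∈ Λ, - W y * u y ^ 2 = - ∑ y ∈ Λ, W y * u y ^ 2 := by
    rw [← Finset.sum_neg_distrib]
    exact Finset.sum_congr rfl fun y _ => by ring
  rw [h3] at h2
  rw [abs_le, sub_mul]
  constructor <;> linarith

end Pool.Agent.LOC
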