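import Pool.Agent.Helper54_LOC.Num

/-!
# LOC: module INIT
-/

set_option autoImplicit false

open MeasureTheory ProbabilityTheory Filter

open scoped ENNReal NNReal BigOperators Topology

noncomputable section

namespace Pool.Agent.LOC

open Matrix Pool.Agent.Anderson Pool.Agent.Loc Pool.Agent.BED

theorem LB_of_FB {d : ℕ} {V : Site d → ℝ} {Λ : Finset (Site d)} {z g : ℝ}
    (h : FB V Λ (z - g)) {E : ℝ} (hE : z ≤ |E|) : ∃ s : ℝ, |s| = 1 ∧ LB V Λ E s g := by
  have h5 : ∀ u : Site d → ℝ, 0 ≤ ∑ y ∈ Λ, u y ^ 2 :=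
    fun u => Finset.sum_nonneg fun y _ => sq_nonneg _
  rcases le_total 0 E with hE0 | hE0
  · refine ⟨1, abs_one, fun u => ?_⟩
    have h1 := (abs_le.1 (h u)).2
    rw [abs_of_nonneg hE0] at hE
    have h2 := mul_le_mul_of_nonneg_right hE (h5 u)
    rw [one_mul, qform_eq]
    linarith
  · refine ⟨-1, by norm_num, fun u => ?_⟩
    have h1 := (abs_le.1 (h u)).1
    rw [abs_of_nonpos hE0] at hE
    have h2 := mul_le_mul_of_nonneg_right hE (h5 u)
    rw [qform_eq]
    linarith

theorem init : InitStmt := by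
  intro d ν _ ρ hν z g κ p₀ L hg hκ hκg hp₀ hbad E hE x W hx hW u hu hxu
  have hρ := hν.1
  set B : Set (Site d → ℝ) := {V | ¬ FB V W (z - g)} with hB
  have hBm : MeasurableSet B := (measurableSet_FB W _).compl
  rw [← lintegral_add_compl _ hBm, add_comm]
  have h1 : ∫⁻ V in Bᶜ, qg W E x u V ∂(PL ν W) ≤
      ENNReal.ofReal (√(2 / g) * Real.exp (-κ * L / 2)) := by
    calc ∫⁻ V in Bᶜ, qg W E x u V ∂(PL ν W)
        ≤ ∫⁻ V in Bᶜ, ENNReal.ofReal (√(2 / g) * Real.exp (-κ * L / 2))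
            ∂(PL ν W) := by
          apply setLIntegral_mono measurable_const
          intro V hV
          have hGE : FB V W (z - g) := by
            by_contra hcon
            exact hV hcon
          obtain ⟨s, hs, hLB⟩ := LB_of_FB hGE hE
          have h2 := combes_thomas hg hs hLB hκ hκg x u
          unfold qg
          apply ENNReal.ofReal_le_ofReal
          refine (Real.sqrt_le_sqrt h2).trans (le_of_eq ?_)
          rw [Real.sqrt_mul (by positivity), hxu]
          congr 1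
          have e : Real.exp (-κ * (L : ℝ)) = Real.exp (-κ * L / 2) * Real.exp (-κ * L / 2) := by
            rw [← Real.exp_add]; congr 1; ring
          rw [e, Real.sqrt_mul_self (Real.exp_pos _).le]
      _ ≤ ENNReal.ofReal (√(2 / g) * Real.exp (-κ * L / 2)) * 1 := by
          rw [setLIntegral_const]
          gcongr
          exact prob_le_one
      _ = _ := mul_one _
  have h2 : ∫⁻ V in B, qg W E x u V ∂(PL ν W) ≤ ENNReal.ofReal (2 * √(6 * ρ * p₀)) := by
    have h3 := PL_sqrt_event hν W E x u B (a := √(6 * ρ / p₀)) (by positivity)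
    refine h3.trans ?_
    have h4 : √(6 * ρ / p₀) * p₀ = √(6 * ρ * p₀) := by
      rw [← Real.sqrt_sq (show 0 ≤ √(6 * ρ / p₀) * p₀ by positivity)]
      congr 1
      rw [mul_pow, Real.sq_sqrt (by positivity)]
      field_simp
    have h5 : 6 * ρ / √(6 * ρ / p₀) = √(6 * ρ * p₀) := by
      rw [div_eq_iff (by positivity), ← Real.sqrt_mul (by positivity),
        show 6 * ρ * p₀ * (6 * ρ / p₀) = (6 * ρ) ^ 2 by field_simp,
        Real.sqrt_sq (by positivity)]
    calc ENNReal.ofReal √(6 * ρ / p₀) * PL ν W B + ENNReal.ofReal (6 * ρ / √(6 * ρ / p₀))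
        ≤ ENNReal.ofReal √(6 * ρ / p₀) * ENNReal.ofReal p₀ +
          ENNReal.ofReal (6 * ρ / √(6 * ρ / p₀)) := by
          gcongr
          exact hbad x W hW
      _ = ENNReal.ofReal (2 * √(6 * ρ * p₀)) := by
          rw [← ENNReal.ofReal_mul (by positivity), h4, h5,
            ← ENNReal.ofReal_add (by positivity) (by positivity)]
          congr 1
          ring
  calc _ ≤ ENNReal.ofReal (√(2 / g) * Real.exp (-κ * L / 2)) +
        ENNReal.ofReal (2 * √(6 * ρ * p₀)) := add_le_add h1 h2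
    _ = _ := (ENNReal.ofReal_add (by positivity) (by positivity)).symm

universe u

/-- fixed energy decay from the flatness of the landscape function -/
theorem fixedDecay_of_flat {d : ℕ} (hd : 1 ≤ d) {σ z μ p : ℝ} {r : ℕ} {v : ℝ≥0} (hσ : σ ≠ 0)
    (hv : (v : ℝ) = σ ^ 2) (hμ : 1 ≤ μ)
    (hgau : gau d (4 * r + 3) v {V | ¬ Flat z μ V} ≤ ENNReal.ofReal p) (hp1 : 0 < p)
    (hnum : 2 * d * ((2 * (r:ℝ) + 5) ^ d) ^ 4 * ((√(2 / (1 / (2 * μ))) *
          Real.exp (-(1 / (2 * μ) / (8 * d)) * r / 2) + 2 * √(6 * (1 / |σ|) * (2 * p))) *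
            (2 * √(6 * (1 / |σ|)))) ≤ Real.exp (-1))
    {Ω : Type u} [MeasurableSpace Ω] {P : Measure Ω} [IsProbabilityMeasure P]
    {ξ : Site d → Ω → ℝ} (hm : ∀ y, Measurable (ξ y))
    (hlaw : ∀ y, P.map (ξ y) = gaussianReal 0 1) (hind : iIndepFun ξ P) :
    FixedDecay P (fun y ω => σ * ξ y ω) z (2 * √(6 * (1 / |σ|)) * Real.exp 1)
      (2 / (3 * (r + 2))) := by
  have hd0 : (0:ℝ) < d := by exact_mod_cast hd
  have hμ0 : 0 < μ := by linarith
  set g : ℝ := 1 / (2 * μ) with hg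
  have hg0 : 0 < g := by positivity
  have hg1 : g ≤ 1 := by
    rw [hg, div_le_one (by positivity)]; linarith
  set κ : ℝ := g / (8 * d) with hκ
  have hκ0 : 0 < κ := by positivity
  have hκ1 : κ ≤ 1 := by
    rw [hκ, div_le_one (by positivity)]
    have : (1:ℝ) ≤ d := by exact_mod_cast hd
    linarith
  have hκg : 2 * d * (Real.exp κ - 1) ≤ g / 2 := by
    have e1 := exp_sub_one_le hκ0.le hκ1
    calc 2 * d * (Real.exp κ - 1) ≤ 2 * d * (2 * κ) := by gcongr
      _ = g / 2 := by rw [hκ]; field_simp; ring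
  refine fixedDecay_of_init (ν := gl σ) (bddDens_gl hσ) (fun y => (hm y).const_mul σ) ?_ ?_
    (ε := √(2 / g) * Real.exp (-κ * r / 2) + 2 * √(6 * (1 / |σ|) * (2 * p))) (by positivity)
    ?_ hnum
  · intro y
    unfold gl γ1
    rw [← hlaw y, Measure.map_map (by fun_prop) (hm y)]
    rfl
  · exact hind.comp (fun _ t => σ * t) fun _ => by fun_prop
  · intro E hE
    exact init d (gl σ) (1 / |σ|) (bddDens_gl hσ) z g κ (2 * p) r hg0 hκ0.le hκg (by positivity)
      (fun x W hW => PL_FB hm hlaw hind hv hp1.le hμ0 hgau le_rfl x W hW) E hE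

end Pool.Agent.LOC
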