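import Pool.Agent.Helper54_LOC.Gap

/-!
# LOC: the law of the potential in boxes
-/

set_option autoImplicit false

open MeasureTheory ProbabilityTheory

open scoped ENNReal NNReal BigOperators

noncomputable section

namespace Pool.Agent.LOC

open Matrix Pool.Agent.Anderson Pool.Agent.Loc Pool.Agent.BED

variable {d M : ℕ}

theorem hop_shift (x y w : Site d) : hop (y - x) (w - x) = hop y w := by
  unfold hop
  refine Finset.sum_congr rfl fun i _ => ?_
  have h1 : (w - x = y - x + Pi.single i 1) ↔ (w = y + Pi.single i 1) := by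
    rw [sub_eq_iff_eq_add, add_right_comm, sub_add_cancel]
  have h2 : (w - x = y - x - Pi.single i 1) ↔ (w = y - Pi.single i 1) := by
    rw [sub_eq_iff_eq_add, sub_add_eq_add_sub, sub_add_cancel]
  simp only [h1, h2]

theorem FB_shift {V : Site d → ℝ} {Λ : Finset (Site d)} {e : ℝ} (x : Site d)
    (h : FB (fun y => V (x + y)) (Λ.image fun y => y - x) e) : FB V Λ e := by
  classical
  intro u
  have h1 := h (fun y => u (x + y))
  have hinj : ∀ y ∈ Λ, ∀ w ∈ Λ, y - x = w - x → y = w := fun y _ w _ h => sub_left_injective h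
  have e1 : ∀ y : Site d, x + (y - x) = y := fun y => by abel
  unfold hf at h1 ⊢
  rw [Finset.sum_image hinj, Finset.sum_image hinj, Finset.sum_image hinj] at h1
  simp only [e1, hop_shift] at h1
  have h2 : ∀ y ∈ Λ, ∑ z ∈ Λ.image (fun y => y - x), u y * hop (y - x) z * u (x + z) =
      ∑ z ∈ Λ, u y * hop y z * u z := by
    intro y _
    rw [Finset.sum_image hinj]
    simp only [e1, hop_shift]
  rw [Finset.sum_congr rfl h2] at h1
  exact h1

theorem measurableSet_FB (Λ : Finset (Site d)) (e : ℝ) :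
    MeasurableSet {V : Site d → ℝ | FB V Λ e} := by
  have h1 : {V : Site d → ℝ | FB V Λ e} = ⋂ u : Site d → ℝ,
      {V : Site d → ℝ | |∑ y ∈ Λ, V y * u y ^ 2 + hf Λ u| ≤ e * ∑ y ∈ Λ, u y ^ 2} := by
    ext V
    simp only [FB, Set.mem_ofPred_eq, Set.mem_iInter]
  rw [h1]
  apply IsClosed.measurableSet
  apply isClosed_iInter
  intro u
  apply isClosed_le _ continuous_const
  apply Continuous.abs
  refine Continuous.add ?_ continuous_const
  exact continuous_finsetSum _ fun y _ => (continuous_apply y).mul continuous_const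

theorem FB_congr {V V' : Site d → ℝ} {Λ : Finset (Site d)} (h : ∀ x ∈ Λ, V x = V' x) (e : ℝ) :
    FB V Λ e ↔ FB V' Λ e := by
  unfold FB
  refine forall_congr' fun u => ?_
  rw [Finset.sum_congr rfl fun y hy => by rw [h y hy]]

universe u

variable {Ω : Type u} [MeasurableSpace Ω] {P : Measure Ω} [IsProbabilityMeasure P]
  {ξ : Site d → Ω → ℝ}

/-- the probability that the landscape functions are not flat -/
theorem prob_flat [NeZero M] (hm : ∀ y, Measurable (ξ y))
    (hlaw : ∀ y, P.map (ξ y) = gaussianReal 0 1) (hind : iIndepFun ξ P) {σ : ℝ} {v : ℝ≥0}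
    (hv : (v : ℝ) = σ ^ 2) {z μ p : ℝ} (hp : 0 ≤ p)
    (hgau : gau d M v {V | ¬ Flat z μ V} ≤ ENNReal.ofReal p) (x : Site d) :
    P {ω | ¬ (Flat z μ (fun t : Tor d M => σ * ξ (x + rep t) ω) ∧
      Flat z μ (fun t : Tor d M => - (σ * ξ (x + rep t) ω)))} ≤ ENNReal.ofReal (2 * p) := by
  have hind' : iIndepFun (fun y => ξ (x + y)) P := hind.precomp (add_right_injective x)
  have key : ∀ s : ℝ, s ^ 2 = σ ^ 2 →
      P {ω | ¬ Flat z μ (fun t : Tor d M => s * ξ (x + rep t) ω)} ≤ ENNReal.ofReal p := by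
    intro s hs
    have hl := H73.lawT d M Ω P (fun y => ξ (x + y)) (fun y => hm _) (fun y => hlaw _) hind' s v
      (by rw [hv, hs])
    have hmeas : Measurable fun ω (t : Tor d M) => s * ξ (x + rep t) ω :=
      measurable_pi_lambda _ fun t => (hm _).const_mul s
    have h2 := Measure.le_map_apply (μ := P) hmeas.aemeasurable {V | ¬ Flat z μ V}
    rw [show P.map (fun ω (t : Tor d M) => s * ξ (x + rep t) ω) = gau d M v from hl] at h2
    exact h2.trans hgau
  have h1 := key σ rfl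
  have h2 := key (-σ) (by ring)
  have hsub : {ω | ¬ (Flat z μ (fun t : Tor d M => σ * ξ (x + rep t) ω) ∧
      Flat z μ (fun t : Tor d M => - (σ * ξ (x + rep t) ω)))} ⊆
      {ω | ¬ Flat z μ (fun t : Tor d M => σ * ξ (x + rep t) ω)} ∪
      {ω | ¬ Flat z μ (fun t : Tor d M => (-σ) * ξ (x + rep t) ω)} := by
    intro ω hω
    by_contra hcon
    rw [Set.mem_union, not_or] at hcon
    apply hω
    refine ⟨by_contra fun h => hcon.1 h, ?_⟩
    have e : (fun t : Tor d M => - (σ * ξ (x + rep t) ω)) =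
        fun t : Tor d M => (-σ) * ξ (x + rep t) ω := by
      funext t; ring
    rw [e]
    exact by_contra fun h => hcon.2 h
  refine (measure_mono hsub).trans ((measure_union_le _ _).trans ?_)
  rw [two_mul, ENNReal.ofReal_add hp hp]
  exact add_le_add h1 h2

/-- the gap in boxes, with large probability -/
theorem prob_FB [NeZero M] (hm : ∀ y, Measurable (ξ y))
    (hlaw : ∀ y, P.map (ξ y) = gaussianReal 0 1) (hind : iIndepFun ξ P) {σ : ℝ} {v : ℝ≥0}
    (hv : (v : ℝ) = σ ^ 2) {z μ p : ℝ} (hp : 0 ≤ p) (hμ : 0 < μ)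
    (hgau : gau d M v {V | ¬ Flat z μ V} ≤ ENNReal.ofReal p) {r : ℕ} (hr : 4 * r + 3 ≤ M)
    (x : Site d) (W : Finset (Site d)) (hW : W ⊆ box x r) :
    P {ω | ¬ FB (fun y => σ * ξ y ω) W (z - 1 / (2 * μ))} ≤ ENNReal.ofReal (2 * p) := by
  classical
  refine (measure_mono ?_).trans (prob_flat hm hlaw hind hv hp hgau x)
  intro ω hω hcon
  apply hω
  refine FB_shift x (gap d M r hr z μ _ hμ hcon.1 hcon.2 _ ?_)
  intro y hy
  rw [Finset.mem_image] at hy
  obtain ⟨w, hw, rfl⟩ := hy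
  have h1 := sd_le_iff.1 (mem_box.1 (hW hw))
  rw [mem_box, sd_le_iff]
  intro i
  have h2 := h1 i
  rw [Pi.zero_apply, zero_sub, Pi.sub_apply, neg_sub]
  exact h2

/-- the same for the law `PL` -/
theorem PL_FB [NeZero M] (hm : ∀ y, Measurable (ξ y))
    (hlaw : ∀ y, P.map (ξ y) = gaussianReal 0 1) (hind : iIndepFun ξ P) {σ : ℝ} {v : ℝ≥0}
    (hv : (v : ℝ) = σ ^ 2) {z μ p : ℝ} (hp : 0 ≤ p) (hμ : 0 < μ)
    (hgau : gau d M v {V | ¬ Flat z μ V} ≤ ENNReal.ofReal p) {r : ℕ} (hr : 4 * r + 3 ≤ M)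
    (x : Site d) (W : Finset (Site d)) (hW : W ⊆ box x r) :
    PL (gl σ) W {V | ¬ FB V W (z - 1 / (2 * μ))} ≤ ENNReal.ofReal (2 * p) := by
  have h1 := prob_FB hm hlaw hind hv hp hμ hgau hr x W hW
  have h2 := transfer (ν := gl σ) (P := P) (V := fun y ω => σ * ξ y ω) (Λ := W)
    (S := {V | ¬ FB V W (z - 1 / (2 * μ))}) (fun y => (hm y).const_mul σ) (fun y => by
      unfold gl γ1
      rw [← hlaw y, Measure.map_map (by fun_prop) (hm y)]
      rfl) (hind.comp (fun _ t => σ * t) fun _ => by fun_prop) (measurableSet_FB W _).compl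
    (fun V V' h => not_congr (FB_congr h _))
  rw [← h2]
  exact h1

end Pool.Agent.LOC
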