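import Pool.Agent.Helper54_LOC.Law

/-!
# LOC: numerics
-/

set_option autoImplicit false

open MeasureTheory ProbabilityTheory Filter

open scoped ENNReal NNReal BigOperators Topology

noncomputable section

namespace Pool.Agent.LOC

open Matrix Pool.Agent.Anderson Pool.Agent.Loc Pool.Agent.BED

theorem exists_t0 (d : ℕ) (hd : 1 ≤ d) : ∃ t₀ : ℝ, 2 ≤ t₀ ∧ ∀ t : ℝ, t₀ ≤ t →
    84 * d * 4 ^ (4 * d) * (t ^ (8 * d + 2) * Real.exp (-(1 / (384 * d) * t)) + t⁻¹) ≤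
      Real.exp (-1) := by
  have hd0 : (0:ℝ) < d := by exact_mod_cast hd
  have h1 : Tendsto (fun t : ℝ => t ^ (8 * d + 2) * Real.exp (-(1 / (384 * d) * t))) atTop (𝓝 0) := by
    have h := tendsto_rpow_mul_exp_neg_mul_atTop_nhds_zero ((8 * d + 2 : ℕ) : ℝ) (1 / (384 * d))
      (by positivity)
    refine h.congr' ?_
    filter_upwards [eventually_gt_atTop 0] with t ht
    rw [Real.rpow_natCast, neg_mul]
  have h2 := ((h1.add tendsto_inv_atTop_zero).const_mul (84 * (d:ℝ) * 4 ^ (4 * d)))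
  rw [add_zero, mul_zero] at h2
  have h3 := h2.eventually_le_const (Real.exp_pos (-1))
  obtain ⟨t₁, ht₁⟩ := eventually_atTop.1 h3
  exact ⟨max 2 t₁, le_max_left _ _, fun t ht => ht₁ t ((le_max_right _ _).trans ht)⟩

theorem numeric {d : ℕ} (hd : 1 ≤ d) {t s μ p : ℝ} {r : ℕ} (ht : 2 ≤ t)
    (htt : 84 * d * 4 ^ (4 * d) * (t ^ (8 * d + 2) * Real.exp (-(1 / (384 * d) * t)) + t⁻¹) ≤
      Real.exp (-1)) (hs : 0 < s) (hst : 1 / s ≤ t) (hμ1 : 10 * t ≤ μ) (hμ2 : μ ≤ 12 * t)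
    (hr1 : t ^ 2 ≤ r) (hr2 : (r : ℝ) ≤ t ^ 2 + 1) (hp0 : 0 ≤ p)
    (hp : p ≤ 1 / (2 * (t ^ (8 * d + 3)) ^ 2)) :
    2 * d * ((2 * (r:ℝ) + 5) ^ d) ^ 4 * ((√(2 / (1 / (2 * μ))) *
      Real.exp (-(1 / (2 * μ) / (8 * d)) * r / 2) + 2 * √(6 * (1 / s) * (2 * p))) *
        (2 * √(6 * (1 / s)))) ≤ Real.exp (-1) := by
  have hd0 : (0:ℝ) < d := by exact_mod_cast hd
  have ht0 : 0 < t := by linarith
  have hμ0 : 0 < μ := by linarith
  have hs1 : 0 < 1 / s := by positivity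
  refine le_trans ?_ htt
  have e1 : ((2 * (r:ℝ) + 5) ^ d) ^ 4 ≤ 4 ^ (4 * d) * t ^ (8 * d) := by
    rw [← pow_mul]
    calc (2 * (r:ℝ) + 5) ^ (d * 4) ≤ (4 * t ^ 2) ^ (d * 4) := by
          apply pow_le_pow_left₀ (by positivity)
          nlinarith only [hr2, ht]
      _ = _ := by rw [mul_pow, ← pow_mul]; congr 2 <;> ring
  have e2 : √(2 / (1 / (2 * μ))) ≤ 7 * t := by
    rw [Real.sqrt_le_left (by positivity)]
    have : 2 / (1 / (2 * μ)) = 4 * μ := by field_simp; ring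
    rw [this]
    nlinarith only [hμ2, ht]
  have e3 : Real.exp (-(1 / (2 * μ) / (8 * d)) * r / 2) ≤ Real.exp (-(1 / (384 * d) * t)) := by
    apply Real.exp_le_exp.2
    have f1 : 1 / (384 * d) * t ≤ (1 / (2 * μ) / (8 * d)) * r / 2 := by
      have f2 : (1 / (2 * μ) / (8 * d)) * (r:ℝ) / 2 = r / (32 * d * μ) := by
        field_simp; ring
      have f3 : 1 / (384 * d) * t = t ^ 2 / (32 * d * (12 * t)) := by
        field_simp; norm_num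
      rw [f2, f3]
      gcongr
    linarith
  have e4 : √(6 * (1 / s)) ≤ 3 * t := by
    rw [Real.sqrt_le_left (by positivity)]
    nlinarith only [hst, ht]
  have e5 : √(6 * (1 / s) * (2 * p)) ≤ 3.5 * (t ^ (8 * d + 2))⁻¹ := by
    rw [Real.sqrt_le_left (by positivity)]
    have f1 : 6 * (1 / s) * (2 * p) ≤ 6 * t * (2 * (1 / (2 * (t ^ (8 * d + 3)) ^ 2))) := by
      gcongr
    refine f1.trans ?_
    have f2 : 6 * t * (2 * (1 / (2 * (t ^ (8 * d + 3)) ^ 2))) = 6 * t⁻¹ * ((t ^ (8 * d + 2))⁻¹) ^ 2 := by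
      have : t ^ (8 * d + 3) = t ^ (8 * d + 2) * t := by rw [← pow_succ]
      rw [this]
      field_simp
    rw [f2, mul_pow]
    have f3 : t⁻¹ ≤ 1 := inv_le_one_of_one_le₀ (by linarith)
    have f4 : 0 ≤ ((t ^ (8 * d + 2))⁻¹) ^ 2 := by positivity
    linarith only [mul_le_mul_of_nonneg_right f3 f4, f4]
  calc 2 * d * ((2 * (r:ℝ) + 5) ^ d) ^ 4 * ((√(2 / (1 / (2 * μ))) *
      Real.exp (-(1 / (2 * μ) / (8 * d)) * r / 2) + 2 * √(6 * (1 / s) * (2 * p))) *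
        (2 * √(6 * (1 / s))))
      ≤ 2 * d * (4 ^ (4 * d) * t ^ (8 * d)) * (((7 * t) *
      Real.exp (-(1 / (384 * d) * t)) + 2 * (3.5 * (t ^ (8 * d + 2))⁻¹)) * (2 * (3 * t))) := by
        gcongr
    _ = 84 * d * 4 ^ (4 * d) * (t ^ (8 * d + 2) * Real.exp (-(1 / (384 * d) * t)) +
        t ^ (8 * d + 1) * (t ^ (8 * d + 2))⁻¹) := by
        rw [pow_add t (8 * d) 2, pow_add t (8 * d) 1]; ring
    _ = 84 * d * 4 ^ (4 * d) * (t ^ (8 * d + 2) * Real.exp (-(1 / (384 * d) * t)) + t⁻¹) := by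
        congr 2
        rw [pow_succ t (8 * d + 1)]
        field_simp

/-- the core: the parameters -/
theorem params (d : ℕ) (hd : 3 ≤ d) :
    ∃ c₂ t₀ C : ℝ, 0 < c₂ ∧ 2 ≤ t₀ ∧ 0 < C ∧ ∀ (σ t : ℝ), σ ≠ 0 → |σ| ≤ 1 → t₀ ≤ t →
      1 / |σ| ≤ t → σ ^ 2 * growth d t * Real.log t ≤ c₂ →
      ∃ (z μ p : ℝ) (r : ℕ) (v : ℝ≥0), (v : ℝ) = σ ^ 2 ∧ 10 * t ≤ μ ∧ μ ≤ 12 * t ∧
        |z - 2 * d| ≤ C * (σ ^ 2 + 1 / t) ∧ t ^ 2 ≤ r ∧ (r : ℝ) ≤ t ^ 2 + 1 ∧ 0 < p ∧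
        p ≤ 1 / 8 ∧ p ≤ 1 / (2 * (t ^ (8 * d + 3)) ^ 2) ∧
        gau d (4 * r + 3) v {V | ¬ Flat z μ V} ≤ ENNReal.ofReal p ∧
        2 * d * ((2 * (r:ℝ) + 5) ^ d) ^ 4 * ((√(2 / (1 / (2 * μ))) *
          Real.exp (-(1 / (2 * μ) / (8 * d)) * r / 2) + 2 * √(6 * (1 / |σ|) * (2 * p))) *
            (2 * √(6 * (1 / |σ|)))) ≤ Real.exp (-1) := by
  obtain ⟨c0, C0, hc0, hC0, hF⟩ := flatAll d hd
  obtain ⟨c, hc, hc2, hprob⟩ := prob_small d hc0 hC0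
  obtain ⟨t₀, ht₀, htt⟩ := exists_t0 d (by omega)
  set K : ℕ := 8 * d + 3 with hK
  have hK0 : (0:ℝ) < K := by rw [hK]; positivity
  refine ⟨c / K, t₀, 2 * C0, by positivity, ht₀, by positivity, ?_⟩
  intro σ t hσ hσ1 ht hst hcond
  have ht2 : 2 ≤ t := ht₀.trans ht
  have ht0 : 0 < t := by linarith
  set R : ℝ := t ^ K with hR
  have htR : t ^ 2 ≤ R := pow_le_pow_right₀ (by linarith) (by omega)
  have htR1 : t ≤ R := by nlinarith only [htR, ht2]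
  set r : ℕ := ⌈t ^ 2⌉₊ with hr
  have hr1 : t ^ 2 ≤ r := Nat.le_ceil _
  have hr2 : (r:ℝ) ≤ t ^ 2 + 1 := (Nat.ceil_lt_add_one (by positivity)).le
  set M : ℕ := 4 * r + 3 with hM
  have hMR : (M:ℝ) ≤ 8 * R := by
    rw [hM]; push_cast; nlinarith only [hr2, htR, ht2]
  have htM : t ≤ M := by
    rw [hM]; push_cast; nlinarith only [hr1, ht2]
  have hlogR : Real.log R = K * Real.log t := by rw [hR, Real.log_pow]
  have hcond' : σ ^ 2 * growth d t * Real.log R ≤ c := by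
    rw [hlogR]
    rw [le_div_iff₀ hK0] at hcond
    linarith only [hcond]
  have hpR := hprob σ t R M hσ ht2 htR1 hMR hcond'
  set s : ℝ≥0 := ⟨|σ|, abs_nonneg σ⟩ with hs
  have hsσ : (s : ℝ) ^ 2 = σ ^ 2 := by
    rw [hs]; exact sq_abs σ
  have hs0 : 0 < s := by
    rw [← NNReal.coe_pos]; exact abs_pos.2 hσ
  have hs1 : s ≤ 1 := by
    rw [← NNReal.coe_le_coe]
    exact hσ1
  set p : ℝ := C0 * (1 + Real.log t) * (M : ℝ) ^ d *
    Real.exp (-c0 / ((s : ℝ) ^ 2 * growth d t)) with hp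
  have hp1 : p ≤ 1 / (2 * R ^ 2) := by rw [hp, hsσ]; exact hpR
  have hp0 : 0 < p := by
    have := Real.log_nonneg (x := t) (by linarith)
    positivity
  have hR4 : 4 ≤ R := by nlinarith only [htR, ht2]
  have hp8 : p ≤ 1 / 8 := hp1.trans (one_div_le_one_div_of_le (by norm_num) (by nlinarith only [hR4]))
  obtain ⟨z, μ, hμ1, hμ2, hz, hzest, hmeas⟩ := hF M t s p (by omega) (by linarith) htM hs0 hs1
    rfl (by linarith)
  refine ⟨z, μ, p, r, s ^ 2, by rw [← hsσ]; push_cast; rfl, hμ1, hμ2, ?_, hr1, hr2, hp0, hp8, hp1,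
    hmeas, numeric (by omega) ht2 (htt t ht) (abs_pos.2 hσ) hst hμ1 hμ2 hr1 hr2 hp0.le hp1⟩
  refine hzest.trans ?_
  rw [hsσ]
  have h1 : Real.sqrt p ≤ 1 / t := by
    rw [Real.sqrt_le_left (by positivity)]
    refine hp1.trans ?_
    rw [div_pow, one_pow]
    refine one_div_le_one_div_of_le (by positivity) ?_
    linarith only [mul_self_le_mul_self ht0.le htR1, mul_self_nonneg R]
  have h2 : 0 ≤ 1 / t := by positivity
  have h3 : 0 ≤ σ ^ 2 := sq_nonneg _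
  linarith only [mul_le_mul_of_nonneg_left h1 hC0.le, mul_nonneg hC0.le h3, mul_nonneg hC0.le h2]

end Pool.Agent.LOC
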