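import Pool.Agent.Helper54_BED.All
import Pool.Agent.Helper48_Loc.Assembly

/-!
# LOC: localization up to the effective band edge: module statements
-/

set_option autoImplicit false

open MeasureTheory ProbabilityTheory

open scoped ENNReal NNReal BigOperators

noncomputable section

namespace Pool.Agent.LOC

open Matrix Pool.Agent.Anderson Pool.Agent.Loc Pool.Agent.BED

variable {d : ℕ}

/-- the quadratic form of `H_Λ` is bounded by `e` in absolute value -/
def FB (V : Site d → ℝ) (Λ : Finset (Site d)) (e : ℝ) : Prop :=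
  ∀ u : Site d → ℝ, |∑ y ∈ Λ, V y * u y ^ 2 + hf Λ u| ≤ e * ∑ y ∈ Λ, u y ^ 2

theorem HM_isHermitian (V : Site d → ℝ) (Λ : Finset (Site d)) : (HM V Λ).IsHermitian := by
  unfold Matrix.IsHermitian
  rw [Matrix.conjTranspose_eq_transpose_of_trivial]
  exact HM_symm V Λ

/-- the number of eigenvalues `≥ e` of the restriction of `Δ + V` to the finite set `Λ` -/
def nAbove (V : Site d → ℝ) (Λ : Finset (Site d)) (e : ℝ) : ℕ :=
  (Finset.univ.filter fun i => e ≤ (HM_isHermitian V Λ).eigenvalues i).card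

/-- Module GAP: a gap from the flatness of the landscape function. -/
def GapStmt : Prop := ∀ (d M : ℕ) [NeZero M] (r : ℕ), 4 * r + 3 ≤ M →
  ∀ (z μ : ℝ) (W : Site d → ℝ), 0 < μ → Flat z μ (fun x : Tor d M => W (rep x)) →
    Flat z μ (fun x : Tor d M => - W (rep x)) →
    ∀ Λ : Finset (Site d), Λ ⊆ box 0 r → FB W Λ (z - 1 / (2 * μ))

/-- Module INIT: the initial scale estimate from a gap (as `initScale_of_tail`). -/
def InitStmt : Prop := ∀ (d : ℕ) (ν : Measure ℝ) [IsProbabilityMeasure ν] (ρ : ℝ),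
  BddDens ν ρ → ∀ (z g κ p₀ : ℝ) (L : ℕ), 0 < g → 0 ≤ κ →
    2 * d * (Real.exp κ - 1) ≤ g / 2 → 0 < p₀ →
    (∀ (x : Site d) (W : Finset (Site d)), W ⊆ box x L →
      PL ν W {V | ¬ FB V W (z - g)} ≤ ENNReal.ofReal p₀) →
    ∀ E : ℝ, z ≤ |E| →
      InitScale d ν L (√(2 / g) * Real.exp (-κ * L / 2) + 2 * √(6 * ρ * p₀)) E

universe u

/-- Module UP: an upper bound for the spectrum in boxes of radius `|σ|⁻³` (from the proof of
`regime_small` and `fixedDecay_gauss`). -/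
def UpStmt : Prop := ∀ d : ℕ, 3 ≤ d → ∃ σ₀ : ℝ, 0 < σ₀ ∧ ∀ σ : ℝ, σ ≠ 0 → |σ| < σ₀ →
  ∀ L : ℕ, (L : ℝ) ≤ |σ|⁻¹ ^ 3 →
    ∀ (Ω : Type u) [MeasurableSpace Ω] (P : Measure Ω) [IsProbabilityMeasure P]
      (ξ : Site d → Ω → ℝ), (∀ y, Measurable (ξ y)) →
      (∀ y, P.map (ξ y) = gaussianReal 0 1) → iIndepFun ξ P →
      P {ω | ¬ ∀ u : Site d → ℝ, ∑ y ∈ box 0 L, σ * ξ y ω * u y ^ 2 + hf (box 0 L) u ≤
        (2 * d + watson d * σ ^ 2 + watson d * |σ| ^ (2 + 1 / (24 * d : ℝ))) *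
          ∑ y ∈ box 0 L, u y ^ 2} ≤ ENNReal.ofReal (1 / 4)

/-- Module EXPC: the expected number of eigenvalues above `e` in large boxes, from a bound on the
probability that there is at least one in small boxes (use `MinmaxStmt` with one test function, the
top eigenvector, for each of the disjoint non-adjacent small boxes). -/
def ExpcStmt : Prop := ∀ (d : ℕ) (l : ℕ) (e : ℝ) (Ω : Type u) [MeasurableSpace Ω]
  (P : Measure Ω) [IsProbabilityMeasure P] (V : Site d → Ω → ℝ),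
    (∀ x : Site d, ∃ A : Set Ω, MeasurableSet A ∧ ENNReal.ofReal (1 / 2) ≤ P A ∧
      ∀ ω ∈ A, 0 < nAbove (fun y => V y ω) (box x l) e) →
    ∀ L : ℕ, 2 * l + 2 ≤ L →
      ENNReal.ofReal (1 / 2 * ((2 * (L : ℝ) + 1) / (4 * l + 4)) ^ d) ≤
        ∫⁻ ω, (nAbove (fun y => V y ω) (box 0 L) e : ℝ≥0∞) ∂P

end Pool.Agent.LOC
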