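import Pool.Agent.Helper54_LOC.Edge

/-!
# LOC: weak disorder
-/

set_option autoImplicit false

open MeasureTheory ProbabilityTheory Filter

open scoped ENNReal NNReal BigOperators Topology

noncomputable section

namespace Pool.Agent.LOC

open Matrix Pool.Agent.Anderson Pool.Agent.Loc Pool.Agent.BED

universe u

variable {d : ℕ}

/-- the expected number of eigenvalues -/
theorem expected (hExpc : ExpcStmt.{u}) {C : ℝ} (hC0 : 0 < C) {r : ℕ} {z μ : ℝ}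
    (hC : CountAt d C r z μ) {σ p : ℝ} {v : ℝ≥0} (hv : (v : ℝ) = σ ^ 2) (hp0 : 0 ≤ p)
    (hp8 : p ≤ 1 / 8) (hgau : gau d (4 * r + 3) v {V | ¬ Flat z μ V} ≤ ENNReal.ofReal p) {t : ℝ}
    (ht : 2 ≤ t) (hCt : C ≤ t) (hμ : 10 * t ≤ μ) (hr : t ^ 2 ≤ r) {lam : ℝ} (hl : 1 / t ≤ lam)
    (hl1 : lam ≤ 1) : ∃ L₀ : ℕ, ∀ L : ℕ, L₀ ≤ L →
    ∀ (Ω : Type u) [MeasurableSpace Ω] (P : Measure Ω) [IsProbabilityMeasure P]
      (ξ : Site d → Ω → ℝ), (∀ y, Measurable (ξ y)) →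
      (∀ y, P.map (ξ y) = gaussianReal 0 1) → iIndepFun ξ P →
      ENNReal.ofReal (1 / (2 * (4 * √C + 8) ^ d) * lam ^ ((d : ℝ) / 2) * (2 * (L : ℝ) + 1) ^ d) ≤
        ∫⁻ ω, (nAbove (fun y => σ * ξ y ω) (box 0 L) (z - lam) : ℝ≥0∞) ∂P := by
  have ht0 : 0 < t := by linarith
  have hlam : 0 < lam := lt_of_lt_of_le (by positivity) hl
  set l : ℕ := ⌈√(C / lam)⌉₊ with hldef
  have hl2 : √(C / lam) ≤ l := Nat.le_ceil _
  have hl3 : (l : ℝ) ≤ √(C / lam) + 1 := (Nat.ceil_lt_add_one (Real.sqrt_nonneg _)).le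
  have hCl : C ≤ lam * (l : ℝ) ^ 2 := by
    have h1 : C / lam ≤ (l : ℝ) ^ 2 := by
      calc C / lam = √(C / lam) ^ 2 := (Real.sq_sqrt (by positivity)).symm
        _ ≤ (l : ℝ) ^ 2 := by gcongr
    rw [div_le_iff₀ hlam] at h1
    linarith
  have hlr : l ≤ r := by
    have h1 : √(C / lam) ≤ t := by
      rw [Real.sqrt_le_left ht0.le]
      calc C / lam ≤ C / (1 / t) := by gcongr
        _ = C * t := by rw [div_div_eq_mul_div, div_one]
        _ ≤ t ^ 2 := by nlinarith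
    have h2 : (l : ℝ) ≤ r := by nlinarith
    exact_mod_cast h2
  have h10 : 10 / μ ≤ lam := by
    refine le_trans ?_ hl
    rw [div_le_div_iff₀ (by linarith) ht0]
    linarith
  refine ⟨2 * l + 2, fun L hL Ω _ P _ ξ hm hlaw hind => ?_⟩
  have h1 := hExpc d l (z - lam) Ω P (fun y ω => σ * ξ y ω) ?_ L hL
  · refine le_trans (ENNReal.ofReal_le_ofReal ?_) h1
    have hs : 0 < √lam := Real.sqrt_pos.2 hlam
    have hs1 : √lam ≤ 1 := Real.sqrt_le_one.2 hl1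
    have e1 : lam ^ ((d : ℝ) / 2) = √lam ^ d := by
      rw [Real.sqrt_eq_rpow, ← Real.rpow_natCast, ← Real.rpow_mul hlam.le]
      congr 1
      ring
    have e2 : 4 * (l : ℝ) + 4 ≤ (4 * √C + 8) / √lam := by
      rw [le_div_iff₀ hs]
      have e3 : √(C / lam) * √lam = √C := by
        rw [Real.sqrt_div hC0.le, div_mul_cancel₀ _ hs.ne']
      have e4 : (l : ℝ) * √lam ≤ √C + √lam := by
        calc (l : ℝ) * √lam ≤ (√(C / lam) + 1) * √lam := by gcongr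
          _ = √C + √lam := by rw [add_mul, e3, one_mul]
      nlinarith
    have e5 : 0 < 4 * √C + 8 := by positivity
    have e6 : (√lam * (2 * (L : ℝ) + 1)) / (4 * √C + 8) ≤ (2 * (L : ℝ) + 1) / (4 * l + 4) := by
      rw [div_le_div_iff₀ e5 (by positivity)]
      have e7 : (4 * (l : ℝ) + 4) * √lam ≤ 4 * √C + 8 := by
        rwa [le_div_iff₀ hs] at e2
      have e8 : 0 ≤ 2 * (L : ℝ) + 1 := by positivity
      nlinarith
    calc 1 / (2 * (4 * √C + 8) ^ d) * lam ^ ((d : ℝ) / 2) * (2 * (L : ℝ) + 1) ^ d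
        = 1 / 2 * ((√lam * (2 * (L : ℝ) + 1)) / (4 * √C + 8)) ^ d := by
          rw [e1, div_pow, mul_pow]
          field_simp
      _ ≤ 1 / 2 * ((2 * (L : ℝ) + 1) / (4 * l + 4)) ^ d := by
          have : 0 ≤ (√lam * (2 * (L : ℝ) + 1)) / (4 * √C + 8) := by positivity
          gcongr
  · intro x
    have hb := prob_flat hm hlaw hind hv hp0 hgau x
    set Bad : Set Ω := {ω | ¬ (Flat z μ (fun t : Tor d (4 * r + 3) => σ * ξ (x + rep t) ω) ∧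
      Flat z μ (fun t : Tor d (4 * r + 3) => - (σ * ξ (x + rep t) ω)))} with hBad
    refine ⟨(toMeasurable P Bad)ᶜ, (measurableSet_toMeasurable _ _).compl, ?_, ?_⟩
    · rw [prob_compl_eq_one_sub (measurableSet_toMeasurable _ _), measure_toMeasurable]
      have h3 : P Bad ≤ ENNReal.ofReal (1 / 2) :=
        hb.trans (ENNReal.ofReal_le_ofReal (by linarith))
      calc ENNReal.ofReal (1 / 2) = 1 - ENNReal.ofReal (1 / 2) := by
            rw [← ENNReal.ofReal_one, ← ENNReal.ofReal_sub _ (by norm_num)]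
            norm_num
        _ ≤ 1 - P Bad := tsub_le_tsub_left h3 _
    · intro ω hω
      have h3 : ω ∉ Bad := fun h => hω (subset_toMeasurable P Bad h)
      have h4 : Flat z μ (fun t : Tor d (4 * r + 3) => σ * ξ (x + rep t) ω) := by
        by_contra hcon
        exact h3 fun h => hcon h.1
      exact nAbove_of_flat (W := fun y => σ * ξ y ω) hC x h4 hlr hlam h10 hl1 hCl

/-- weak disorder: everything -/
theorem weak (hUp : UpStmt.{0}) (hExpc : ExpcStmt.{u}) (hLow : LowStmt.{0}) (d : ℕ) (hd : 3 ≤ d) :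
    ∃ c C : ℝ, 0 < c ∧ 0 < C ∧ ∀ σ : ℝ, σ ≠ 0 → |σ| ≤ c → ∃ E₀ K m : ℝ, 0 < m ∧ 0 < E₀ ∧
      |E₀ - (2 * d + watson d * σ ^ 2)| ≤ C * |σ| ^ (2 + 1 / (24 * d : ℝ)) ∧
      (∀ lam : ℝ, window d c σ ≤ lam → lam ≤ 1 → ∃ L₀ : ℕ, ∀ L : ℕ, L₀ ≤ L →
        ∀ (Ω : Type u) [MeasurableSpace Ω] (P : Measure Ω) [IsProbabilityMeasure P]
          (ξ : Site d → Ω → ℝ), (∀ y, Measurable (ξ y)) →
          (∀ y, P.map (ξ y) = gaussianReal 0 1) → iIndepFun ξ P →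
          ENNReal.ofReal (c * lam ^ ((d : ℝ) / 2) * (2 * (L : ℝ) + 1) ^ d) ≤
            ∫⁻ ω, (nAbove (fun y => σ * ξ y ω) (box 0 L) (E₀ - lam) : ℝ≥0∞) ∂P) ∧
      ∀ (Ω : Type u) [MeasurableSpace Ω] (P : Measure Ω) [IsProbabilityMeasure P]
        (ξ : Site d → Ω → ℝ), (∀ y, Measurable (ξ y)) →
        (∀ y, P.map (ξ y) = gaussianReal 0 1) → iIndepFun ξ P →
        FixedDecay P (fun y ω => σ * ξ y ω) E₀ K m := by
  obtain ⟨c₂, t₀, C₁, hc₂, ht₀, hC₁, hpar⟩ := params d hd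
  obtain ⟨c₁, σ₁, hc₁, hσ₁, hσ₁1, hwin⟩ := window_spec d hc₂
  obtain ⟨Cc, hCc, hcount⟩ := countAll d (by omega)
  obtain ⟨σ₂, hσ₂, hup⟩ := hUp d hd
  obtain ⟨σ₃, C₃, hσ₃, hC₃, hlow⟩ := hLow d hd
  have hG := watson_pos hd
  set G := watson d with hGdef
  set cc : ℝ := 1 / (2 * (4 * √Cc + 8) ^ d) with hcc
  have hcc0 : 0 < cc := by positivity
  set a₀ : ℝ := 1 / (1 + t₀ + C₁ * 2 + 4 * Cc) with ha₀
  have ha₀0 : 0 < a₀ := by positivity
  set c : ℝ := min (min (min c₁ σ₁) (min (σ₂ / 2) (σ₃ / 2))) (min (min cc a₀) (1 / 2)) with hc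
  have hc0 : 0 < c := by positivity
  have hcA : c ≤ c₁ := ((min_le_left _ _).trans (min_le_left _ _)).trans (min_le_left _ _)
  have hcB : c ≤ σ₁ := ((min_le_left _ _).trans (min_le_left _ _)).trans (min_le_right _ _)
  have hcC : c ≤ σ₂ / 2 := ((min_le_left _ _).trans (min_le_right _ _)).trans (min_le_left _ _)
  have hcD : c ≤ σ₃ / 2 := ((min_le_left _ _).trans (min_le_right _ _)).trans (min_le_right _ _)
  have hcE : c ≤ cc := ((min_le_right _ _).trans (min_le_left _ _)).trans (min_le_left _ _)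
  have hcF : c ≤ a₀ := ((min_le_right _ _).trans (min_le_left _ _)).trans (min_le_right _ _)
  have hcG : c ≤ 1 / 2 := (min_le_right _ _).trans (min_le_right _ _)
  refine ⟨c, G + 1 + 4 * Cc + C₃, hc0, by positivity, ?_⟩
  intro σ hσ hσc
  set s : ℝ := |σ| with hs
  have hs0 : 0 < s := abs_pos.2 hσ
  have hs2 : s ≤ 1 / 2 := hσc.trans hcG
  have hs1 : s ≤ 1 := by linarith
  have hss : s ^ 2 = σ ^ 2 := by rw [hs, sq_abs]
  obtain ⟨hw0, hwt, hwc⟩ := hwin σ hσ (hσc.trans hcB)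
  rw [← hs] at hwt
  set t : ℝ := (window d c₁ σ)⁻¹ with ht
  have hsinv : 0 < s⁻¹ := by positivity
  have hsinv2 : 2 ≤ s⁻¹ := by
    rw [le_inv_comm₀ (by norm_num) hs0]; linarith
  have hbig : 1 + t₀ + C₁ * 2 + 4 * Cc ≤ s⁻¹ := by
    rw [le_inv_comm₀ (by positivity) hs0]
    have := hσc.trans hcF
    rw [ha₀, one_div] at this
    exact this
  have hs3 : s⁻¹ ≤ s⁻¹ ^ 3 := le_self_pow₀ (by linarith) (by norm_num)
  have hst : s⁻¹ ≤ t := hs3.trans hwt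
  have htt0 : t₀ ≤ t := by linarith
  have ht2 : 2 ≤ t := ht₀.trans htt0
  have ht0 : 0 < t := by linarith
  obtain ⟨z, μ, p, r, v, hv, hμ1, hμ2, hz, hr1, hr2, hp0, hp8, hp1, hgau, hnum⟩ :=
    hpar σ t hσ hs1 htt0 (by rw [one_div]; exact hst) hwc
  have hp0' := hp0.le
  have hμ0 : 0 < μ := by linarith
  have hCA : CountAt d Cc r z μ := by
    intro W hW x₀ L hL hH lam h1 h2 h3
    exact hcount (4 * r + 3) r le_rfl z μ W hμ0 hW x₀ L hL hH lam h1 h2 h3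
  -- powers of `s`
  have hs3' : s ^ 3 ≤ s ^ (2 + 1 / (24 * d : ℝ)) := by
    have hd3 : (3:ℝ) ≤ d := by exact_mod_cast hd
    have h1 : 1 / (24 * d : ℝ) ≤ 1 := by
      rw [div_le_one (by positivity)]; linarith
    calc s ^ 3 = s ^ (3:ℝ) := by norm_cast
      _ ≤ s ^ (2 + 1 / (24 * d : ℝ)) :=
        Real.rpow_le_rpow_of_exponent_ge hs0 hs1 (by linarith)
  have hsp : 0 < s ^ (2 + 1 / (24 * d : ℝ)) := Real.rpow_pos_of_pos hs0 _
  have hts : 1 / t ≤ s ^ 3 := by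
    rw [div_le_iff₀ ht0]
    have h1 : s ^ 3 * s⁻¹ ^ 3 = 1 := by
      rw [← mul_pow, mul_inv_cancel₀ hs0.ne', one_pow]
    calc (1:ℝ) = s ^ 3 * s⁻¹ ^ 3 := h1.symm
      _ ≤ s ^ 3 * t := by gcongr
  have hr6 : s⁻¹ ^ 6 ≤ r := by
    calc s⁻¹ ^ 6 = (s⁻¹ ^ 3) ^ 2 := by ring
      _ ≤ t ^ 2 := by gcongr
      _ ≤ r := hr1
  -- upper bound
  have hupper : z ≤ 2 * d + G * σ ^ 2 + G * s ^ (2 + 1 / (24 * d : ℝ)) + (1 + 4 * Cc) * s ^ 3 := by
    set L : ℕ := ⌊s⁻¹ ^ 3⌋₊ with hL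
    have hL1 : (L : ℝ) ≤ s⁻¹ ^ 3 := Nat.floor_le (by positivity)
    have h8 : 8 ≤ s⁻¹ ^ 3 := by
      calc (8:ℝ) = 2 ^ 3 := by norm_num
        _ ≤ s⁻¹ ^ 3 := by gcongr
    have hL2 : s⁻¹ ^ 3 / 2 ≤ L := by
      have := Nat.lt_floor_add_one (s⁻¹ ^ 3)
      rw [← hL] at this
      linarith
    have hLr : L ≤ r := by
      have : (L : ℝ) ≤ r := by
        refine hL1.trans (le_trans ?_ hr6)
        exact pow_le_pow_right₀ (by linarith) (by norm_num)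
      exact_mod_cast this
    have hlam0 : 0 < (1 + 4 * Cc) * s ^ 3 := by positivity
    have hlam1 : (1 + 4 * Cc) * s ^ 3 ≤ 1 := by
      have h1 : 1 + 4 * Cc ≤ s⁻¹ := by linarith
      have h2 : s ^ 3 ≤ s := by
        calc s ^ 3 ≤ s ^ 1 := pow_le_pow_of_le_one hs0.le hs1 (by norm_num)
          _ = s := pow_one s
      calc (1 + 4 * Cc) * s ^ 3 ≤ s⁻¹ * s := by gcongr
        _ = 1 := inv_mul_cancel₀ hs0.ne'
    have h10 : 10 / μ ≤ (1 + 4 * Cc) * s ^ 3 := by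
      have h1 : 10 / μ ≤ 1 / t := by
        rw [div_le_div_iff₀ hμ0 ht0]; linarith
      have h2 : s ^ 3 ≤ (1 + 4 * Cc) * s ^ 3 :=
        le_mul_of_one_le_left (by positivity) (by linarith)
      linarith
    have hCL : Cc ≤ (1 + 4 * Cc) * s ^ 3 * (L : ℝ) ^ 2 := by
      have h1 : (s⁻¹ ^ 3 / 2) ^ 2 ≤ (L : ℝ) ^ 2 := by gcongr
      have h2 : s ^ 3 * (s⁻¹ ^ 3 / 2) ^ 2 = s⁻¹ ^ 3 / 4 := by
        field_simp; norm_num
      have h3 : Cc * 1 ≤ Cc * s⁻¹ ^ 3 := mul_le_mul_of_nonneg_left (by linarith) hCc.le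
      calc Cc ≤ 4 * Cc * (s⁻¹ ^ 3 / 4) := by linarith
        _ ≤ (1 + 4 * Cc) * (s⁻¹ ^ 3 / 4) :=
            mul_le_mul_of_nonneg_right (by linarith) (by positivity)
        _ = (1 + 4 * Cc) * (s ^ 3 * (s⁻¹ ^ 3 / 2) ^ 2) := by rw [h2]
        _ ≤ (1 + 4 * Cc) * (s ^ 3 * (L : ℝ) ^ 2) := by gcongr
        _ = _ := by ring
    have hσ2 : s < σ₂ := by
      have := hσc.trans hcC
      linarith
    exact edge_upper hCA hv hp0' hp8 hgau (fun Ω _ P _ ξ hm hlaw hind =>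
      hup σ hσ hσ2 L hL1 Ω P ξ hm hlaw hind) hLr hlam0 h10 hlam1 hCL
  -- lower bound
  have hlower : 2 * d + G * σ ^ 2 - C₃ * s ^ (2 + 1 / (24 * d : ℝ)) ≤ z := by
    set L : ℕ := ⌈s⁻¹ ^ 3⌉₊ with hL
    have hL1 : s⁻¹ ^ 3 ≤ L := Nat.le_ceil _
    have h8 : 8 ≤ s⁻¹ ^ 3 := by
      calc (8:ℝ) = 2 ^ 3 := by norm_num
        _ ≤ s⁻¹ ^ 3 := by gcongr
    have hL2 : (L : ℝ) ≤ 2 * s⁻¹ ^ 3 := by
      have := (Nat.ceil_lt_add_one (show 0 ≤ s⁻¹ ^ 3 by positivity)).le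
      rw [← hL] at this
      linarith
    have hLr : L ≤ r := by
      have : (L : ℝ) ≤ r := by
        refine hL2.trans (le_trans ?_ hr6)
        calc 2 * s⁻¹ ^ 3 ≤ s⁻¹ ^ 3 * s⁻¹ ^ 3 :=
              mul_le_mul_of_nonneg_right (by linarith) (by linarith)
          _ = s⁻¹ ^ 6 := by ring
      exact_mod_cast this
    have hσ3 : s < σ₃ := by
      have := hσc.trans hcD
      linarith
    have hpq : 2 * p < s ^ (24 * d) := by
      have h1 : 2 * p ≤ 1 / (t ^ (8 * d + 3)) ^ 2 := by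
        calc 2 * p ≤ 2 * (1 / (2 * (t ^ (8 * d + 3)) ^ 2)) := by linarith
          _ = _ := by field_simp
      have h2 : (s⁻¹ ^ 3) ^ (8 * d + 3) ≤ t ^ (8 * d + 3) := by gcongr
      have h3 : s⁻¹ ^ (24 * d + 1) ≤ (t ^ (8 * d + 3)) ^ 2 := by
        calc s⁻¹ ^ (24 * d + 1) ≤ s⁻¹ ^ (3 * (8 * d + 3)) :=
              pow_le_pow_right₀ (by linarith) (by omega)
          _ = (s⁻¹ ^ 3) ^ (8 * d + 3) := by rw [pow_mul]
          _ ≤ t ^ (8 * d + 3) := h2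
          _ ≤ (t ^ (8 * d + 3)) ^ 2 := le_self_pow₀ (one_le_pow₀ (by linarith)) two_ne_zero
      calc 2 * p ≤ 1 / (t ^ (8 * d + 3)) ^ 2 := h1
        _ ≤ 1 / s⁻¹ ^ (24 * d + 1) := by gcongr
        _ = s ^ (24 * d + 1) := by rw [inv_pow, one_div, inv_inv]
        _ < s ^ (24 * d) := pow_lt_pow_right_of_lt_one₀ hs0 (by linarith) (by omega)
    exact edge_lower hμ0 hv hp0' hgau hpq (fun Ω _ P _ ξ hm hlaw hind =>
      hlow σ hσ hσ3 L hL1 hL2 Ω P ξ hm hlaw hind) hLr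
  -- positivity
  have hz0 : 0 < z := by
    have hd3 : (3:ℝ) ≤ d := by exact_mod_cast hd
    have h1 := (abs_le.1 hz).1
    have h2 : C₁ * (σ ^ 2 + 1 / t) ≤ 1 := by
      have h3 : C₁ * 2 ≤ s⁻¹ := by
        have : 0 < t₀ := by linarith
        linarith
      have h4 : σ ^ 2 ≤ s := by
        rw [← hss]
        calc s ^ 2 ≤ s ^ 1 := pow_le_pow_of_le_one hs0.le hs1 (by norm_num)
          _ = s := pow_one s
      have h5 : 1 / t ≤ s := by
        refine hts.trans ?_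
        calc s ^ 3 ≤ s ^ 1 := pow_le_pow_of_le_one hs0.le hs1 (by norm_num)
          _ = s := pow_one s
      calc C₁ * (σ ^ 2 + 1 / t) ≤ C₁ * (s + s) := by gcongr
        _ = C₁ * 2 * s := by ring
        _ ≤ s⁻¹ * s := by gcongr
        _ = 1 := inv_mul_cancel₀ hs0.ne'
    linarith
  refine ⟨z, 2 * √(6 * (1 / |σ|)) * Real.exp 1, 2 / (3 * (r + 2)), by positivity, hz0, ?_, ?_, ?_⟩
  · rw [abs_le]
    have e1 : (1 + 4 * Cc) * s ^ 3 ≤ (1 + 4 * Cc) * s ^ (2 + 1 / (24 * d : ℝ)) := by gcongr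
    have e2 : 0 < G * s ^ (2 + 1 / (24 * d : ℝ)) := by positivity
    have e3 : 0 < C₃ * s ^ (2 + 1 / (24 * d : ℝ)) := by positivity
    have e4 : 0 < Cc * s ^ (2 + 1 / (24 * d : ℝ)) := by positivity
    have e5 : (G + 1 + 4 * Cc + C₃) * s ^ (2 + 1 / (24 * d : ℝ)) =
        G * s ^ (2 + 1 / (24 * d : ℝ)) + (1 + 4 * Cc) * s ^ (2 + 1 / (24 * d : ℝ)) +
        C₃ * s ^ (2 + 1 / (24 * d : ℝ)) := by ring
    have e6 : (1 + 4 * Cc) * s ^ (2 + 1 / (24 * d : ℝ)) =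
      s ^ (2 + 1 / (24 * d : ℝ)) + 4 * (Cc * s ^ (2 + 1 / (24 * d : ℝ))) := by ring
    constructor
    · linarith
    · linarith
  · intro lam hl hl1
    have hl' : 1 / t ≤ lam := by
      rw [ht, one_div, inv_inv]
      exact (window_anti d hc0 hcA).trans hl
    have hCt : Cc ≤ t := by
      have : 0 < t₀ := by linarith
      linarith
    obtain ⟨L₀, hL₀⟩ := expected hExpc hCc hCA hv hp0' hp8 hgau ht2 hCt hμ1 hr1 hl' hl1
    refine ⟨L₀, fun L hL Ω _ P _ ξ hm hlaw hind => ?_⟩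
    refine le_trans (ENNReal.ofReal_le_ofReal ?_) (hL₀ L hL Ω P ξ hm hlaw hind)
    have hlam : 0 < lam := lt_of_lt_of_le (by positivity) hl'
    gcongr
  · intro Ω _ P _ ξ hm hlaw hind
    exact fixedDecay_of_flat (by omega) hσ hv (by linarith) hgau hp0 hnum hm hlaw hind

end Pool.Agent.LOC
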